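import Pool.Agent.V5helper75.BK.Bkk

/-!
# Project BK: flats in right-angled Coxeter groups
-/

set_option autoImplicit false
set_option linter.unusedSectionVars false

namespace Pool.Agent.V5helper75.BK

open Finset Pool.Agent.W907.SG Pool.Agent.W907.SM Pool.Agent.R782.Bal Pool.Agent.V5helper75.VO Pool.Agent.N504.RS
open Pool.Agent.TH652.Join (join ljoin)

/-- the generator of the right-angled Coxeter group -/
noncomputable abbrev gen {V : Type} (K : SimpleGraph V) (v : V) : W K := (cox K).simple v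

theorem exists_hom {V : Type} {K : SimpleGraph V} {Γ : Type} [Group Γ] (f : V → Γ) (h1 : ∀ v, f v * f v = 1)
    (h2 : ∀ u v, K.Adj u v → f u * f v = f v * f u) : ∃ ρ : W K →* Γ, ∀ v, ρ (gen K v) = f v := by
  classical
  have hf : (cox K).IsLiftable f := by
    intro u v
    show (f u * f v) ^ (Matrix.of fun u v : V => if u = v then 1 else if K.Adj u v then 2 else 0) u v = 1
    rw [Matrix.of_apply]
    by_cases huv : u = v
    · subst huv
      rw [if_pos rfl, h1, one_pow]
    · rw [if_neg huv]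
      by_cases ha : K.Adj u v
      · rw [if_pos ha, pow_two, mul_assoc, ← mul_assoc (f v), ← h2 u v ha, mul_assoc, h1, mul_one, h1]
      · rw [if_neg ha, pow_zero]
  exact ⟨(cox K).toCoxeterSystem.lift ⟨f, hf⟩, fun v => (cox K).toCoxeterSystem.lift_apply_simple hf v⟩

theorem gen_sq {V : Type} (K : SimpleGraph V) (v : V) : gen K v * gen K v = 1 :=
  (cox K).toCoxeterSystem.simple_mul_simple_self v

theorem gen_comm {V : Type} {K : SimpleGraph V} {u v : V} (h : K.Adj u v) :
    gen K u * gen K v = gen K v * gen K u := by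
  classical
  have h1 := (cox K).toCoxeterSystem.simple_mul_simple_pow u v
  have h2 : (cox K).M u v = 2 := by
    show (Matrix.of fun u v : V => if u = v then 1 else if K.Adj u v then 2 else 0) u v = 2
    rw [Matrix.of_apply, if_neg (K.ne_of_adj h), if_pos h]
  rw [h2, pow_two] at h1
  have h3 : gen K u * gen K v * (gen K u * gen K v) = 1 := h1
  calc gen K u * gen K v = gen K u * gen K v * (gen K u * gen K v * (gen K u * gen K v)⁻¹) := by
        rw [mul_inv_cancel, mul_one]
    _ = (gen K u * gen K v * (gen K u * gen K v)) * (gen K u * gen K v)⁻¹ := (mul_assoc _ _ _).symm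
    _ = (gen K v)⁻¹ * (gen K u)⁻¹ := by rw [h3, one_mul, mul_inv_rev]
    _ = gen K v * gen K u := by
        rw [inv_eq_of_mul_eq_one_left (gen_sq K v), inv_eq_of_mul_eq_one_left (gen_sq K u)]

theorem hom_ext {V : Type} {K : SimpleGraph V} {Γ : Type} [Group Γ] {ρ τ : W K →* Γ}
    (h : ∀ v, ρ (gen K v) = τ (gen K v)) (x : W K) : ρ x = τ x := by
  have h1 : ρ = τ := (cox K).toCoxeterSystem.ext_simple h
  rw [h1]

/-- Flats in the group `Γ` which obstruct proper actions on manifolds of dimension less than `2 i`: a finite graph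
`N` such that the van Kampen obstruction of degree `2 i` of its flag complex does not vanish, and elements `t v`
(for the vertices `v` of `N`), commuting for adjacent vertices, with the detection property. -/
def Fl (Γ : Type) [Group Γ] (i : ℕ) : Prop :=
  ∃ (V : Type) (_ : Finite V) (N : SimpleGraph V) (t : V → Γ), ¬ Obs N (2 * i) ∧
    (∀ u w, N.Adj u w → t u * t w = t w * t u) ∧ Dt N t

/-- transfer along a homomorphism with a left inverse -/
theorem Fl.push {Γ Δ : Type} [Group Γ] [Group Δ] {i : ℕ} (h : Fl Γ i) (ι : Γ →* Δ) (r : Δ →* Γ)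
    (hr : ∀ x, r (ι x) = x) : Fl Δ i := by
  obtain ⟨V, hV, N, t, h1, h2, h3⟩ := h
  refine ⟨V, hV, N, fun v => ι (t v), h1, fun u w huw => ?_, fun U U' hU hU' hd u hu => ?_⟩
  · rw [← map_mul, h2 u w huw, map_mul]
  · obtain ⟨ρ, ε, e1, e2⟩ := h3 U U' hU hU' hd u hu
    refine ⟨ρ.comp r, ε, fun w hw => ?_, e2⟩
    rw [MonoidHom.comp_apply, hr]
    exact e1 w hw

/-- degree `0` -/
theorem fl_zero (Γ : Type) [Group Γ] : Fl Γ 0 := by
  refine ⟨Empty, inferInstance, ⊥, fun v => v.elim, fun h => obs_pos h rfl, fun u => u.elim, fun U U' _ _ _ u => u.elim⟩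

/-- products -/
theorem Fl.prod {Γ Δ : Type} [Group Γ] [Group Δ] {i j : ℕ} (h : Fl Γ i) (h' : Fl Δ j) : Fl (Γ × Δ) (i + j) := by
  classical
  obtain ⟨V, hV, N, t, h1, h2, h3⟩ := h
  obtain ⟨V', hV', N', t', h1', h2', h3'⟩ := h'
  refine ⟨V ⊕ V', inferInstance, join N N', fun v => match v with
    | Sum.inl u => (t u, 1)
    | Sum.inr u => (1, t' u), not_obs_join h1 h1', ?_, ?_⟩
  · rintro (u | u) (w | w) huw
    · show ((t u, 1) : Γ × Δ) * (t w, 1) = (t w, 1) * (t u, 1)
      rw [Prod.mk_mul_mk, Prod.mk_mul_mk, h2 u w huw]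
    · show ((t u, 1) : Γ × Δ) * (1, t' w) = (1, t' w) * (t u, 1)
      rw [Prod.mk_mul_mk, Prod.mk_mul_mk, mul_one, one_mul, mul_one, one_mul]
    · show ((1, t' u) : Γ × Δ) * (t w, 1) = (t w, 1) * (1, t' u)
      rw [Prod.mk_mul_mk, Prod.mk_mul_mk, mul_one, one_mul, mul_one, one_mul]
    · show ((1, t' u) : Γ × Δ) * (1, t' w) = (1, t' w) * (1, t' u)
      rw [Prod.mk_mul_mk, Prod.mk_mul_mk, h2' u w huw]
  · have hl : ∀ S : Finset (V ⊕ V'), (join N N').IsClique (S : Set (V ⊕ V')) → N.IsClique (S.toLeft : Set V) := by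
      intro S hS a ha b hb hab
      rw [mem_coe, mem_toLeft] at ha hb
      exact hS ha hb (fun e => hab (Sum.inl_injective e))
    have hr : ∀ S : Finset (V ⊕ V'), (join N N').IsClique (S : Set (V ⊕ V')) → N'.IsClique (S.toRight : Set V') := by
      intro S hS a ha b hb hab
      rw [mem_coe, mem_toRight] at ha hb
      exact hS ha hb (fun e => hab (Sum.inr_injective e))
    rintro U U' hU hU' hd (u | u) hu
    · obtain ⟨ρ, ε, e1, e2, e3, e4⟩ := h3 U.toLeft U'.toLeft (hl U hU) (hl U' hU') (by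
        rw [disjoint_left]
        intro a ha hb
        rw [mem_toLeft] at ha hb
        exact disjoint_left.1 hd ha hb) u (mem_toLeft.2 hu)
      refine ⟨ρ.comp (MonoidHom.fst Γ Δ), Sum.elim ε 0, ?_, e2, ?_, ?_⟩
      · rintro (w | w) hw
        · exact e1 w (by rw [mem_toLeft, mem_toLeft]; exact hw)
        · show ρ 1 = tr 0
          rw [map_one, tr_zero]
      · rintro (w | w) hw
        · exact e3 w (mem_toLeft.2 hw)
        · exact le_rfl
      · rintro (w | w) hw
        · exact e4 w (mem_toLeft.2 hw)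
        · exact le_rfl
    · obtain ⟨ρ, ε, e1, e2, e3, e4⟩ := h3' U.toRight U'.toRight (hr U hU) (hr U' hU') (by
        rw [disjoint_left]
        intro a ha hb
        rw [mem_toRight] at ha hb
        exact disjoint_left.1 hd ha hb) u (mem_toRight.2 hu)
      refine ⟨ρ.comp (MonoidHom.snd Γ Δ), Sum.elim 0 ε, ?_, e2, ?_, ?_⟩
      · rintro (w | w) hw
        · show ρ 1 = tr 0
          rw [map_one, tr_zero]
        · exact e1 w (by rw [mem_toRight, mem_toRight]; exact hw)
      · rintro (w | w) hw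
        · exact le_rfl
        · exact e3 w (mem_toRight.2 hw)
      · rintro (w | w) hw
        · exact le_rfl
        · exact e4 w (mem_toRight.2 hw)

/-- subgroups of finite index -/
theorem Fl.sub {Γ : Type} [Group Γ] {i : ℕ} (h : Fl Γ i) (H : Subgroup Γ) (hH : H.FiniteIndex) : Fl H i := by
  obtain ⟨V, hV, N, t, h1, h2, h3⟩ := h
  have hM : ∀ g : Γ, g ^ (Nat.factorial H.index) ∈ H := fun g => H.pow_mem_of_index_ne_zero_of_dvd hH.index_ne_zero g
    fun m hm0 hm => Nat.dvd_factorial hm0 hm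
  obtain ⟨M, hM1, hM2⟩ : ∃ M : ℕ, 1 ≤ M ∧ ∀ g : Γ, g ^ M ∈ H := ⟨_, Nat.factorial_pos _, hM⟩
  refine ⟨V, hV, N, fun v => ⟨t v ^ M, hM2 _⟩, h1, fun u w huw => ?_, fun U U' hU hU' hd u hu => ?_⟩
  · apply Subtype.ext
    exact (Commute.pow_pow (h2 u w huw) M M : Commute (t u ^ M) (t w ^ M))
  · obtain ⟨ρ, ε, e1, e2, e3, e4⟩ := h3 U U' hU hU' hd u hu
    refine ⟨ρ.comp H.subtype, fun w => M * ε w, fun w hw => ?_, ?_, fun w hw => ?_, fun w hw => ?_⟩
    · show ρ (t w ^ M) = _
      rw [map_pow, e1 w hw, tr_pow]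
    · have : (1 : ℤ) ≤ M := by exact_mod_cast hM1
      nlinarith
    · exact mul_nonneg (Nat.cast_nonneg _) (e3 w hw)
    · exact mul_nonpos_of_nonneg_of_nonpos (Nat.cast_nonneg _) (e4 w hw)

end Pool.Agent.V5helper75.BK
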