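import Pool.Agent.V5helper75.BK.Class

/-!
# Project BK: right-angled Artin groups
-/

set_option autoImplicit false
set_option linter.unusedSectionVars false

namespace Pool.Agent.V5helper75.BK

open Finset Pool.Agent.W907.SG Pool.Agent.R703.MO Pool.Agent.R782.Bal Pool.Agent.V5helper75.VO

/-- the relations `u v = v u` for the adjacent vertices -/
def raagRel {V : Type} (G : SimpleGraph V) : Set (FreeGroup V) :=
  {r | ∃ u v, G.Adj u v ∧ r = FreeGroup.of u * FreeGroup.of v * (FreeGroup.of u)⁻¹ * (FreeGroup.of v)⁻¹}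

/-- the right-angled Artin group of `G` -/
abbrev Raag {V : Type} (G : SimpleGraph V) : Type := PresentedGroup (raagRel G)

/-- the generators -/
def art {V : Type} (G : SimpleGraph V) (v : V) : Raag G := PresentedGroup.of v

theorem art_comm {V : Type} {G : SimpleGraph V} {u v : V} (h : G.Adj u v) :
    art G u * art G v = art G v * art G u := by
  have h1 : art G u * art G v * (art G u)⁻¹ * (art G v)⁻¹ = 1 :=
    PresentedGroup.one_of_mem (rels := raagRel G) ⟨u, v, h, rfl⟩
  rw [mul_inv_eq_one, mul_inv_eq_iff_eq_mul] at h1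
  exact h1

theorem raag_hom {V : Type} {G : SimpleGraph V} {Γ : Type} [Group Γ] (f : V → Γ)
    (h : ∀ u v, G.Adj u v → f u * f v = f v * f u) : ∃ ρ : Raag G →* Γ, ∀ v, ρ (art G v) = f v := by
  have h1 : ∀ r ∈ raagRel G, FreeGroup.lift f r = 1 := by
    rintro r ⟨u, v, huv, rfl⟩
    rw [map_mul, map_mul, map_mul, map_inv, map_inv, FreeGroup.lift_apply_of, FreeGroup.lift_apply_of, h u v huv,
      mul_inv_cancel_right, mul_inv_cancel]
  exact ⟨PresentedGroup.toGroup h1, fun v => PresentedGroup.toGroup.of h1⟩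

/-- the octahedralization gives flats in the right-angled Artin group -/
theorem fl_raag {V : Type} [Fintype V] [LinearOrder V] {G : SimpleGraph V} {i : ℕ} (h : ¬ Ex2 G Set.univ i) :
    Fl (Raag G) i := by
  classical
  obtain ⟨t, t1, t2⟩ : ∃ t : V ×ₗ Bool → Raag G, (∀ v, t (toLex (v, true)) = art G v) ∧
      ∀ v, t (toLex (v, false)) = (art G v)⁻¹ := by
    refine ⟨fun q => if (ofLex q).2 = true then art G (ofLex q).1 else (art G (ofLex q).1)⁻¹, ?_, ?_⟩
    · intro v; simp
    · intro v; simp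
  have hcomm : ∀ u w, (oct G).Adj u w → Commute (t u) (t w) := by
    intro p q hpq
    obtain ⟨⟨v, ε⟩, rfl⟩ := toLex.surjective p
    obtain ⟨⟨w, δ⟩, rfl⟩ := toLex.surjective q
    have h1 : Commute (art G v) (art G w) := art_comm hpq
    cases ε <;> cases δ
    · rw [t2, t2]; exact h1.inv_inv
    · rw [t2, t1]; exact h1.inv_left
    · rw [t1, t2]; exact h1.inv_right
    · rw [t1, t1]; exact h1
  refine ⟨V ×ₗ Bool, inferInstance, oct G, t, fun hO => h (ex2_of_obs hO), hcomm, ?_⟩
  intro U U' hU hU' hd p hp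
  obtain ⟨⟨v, δ⟩, rfl⟩ := toLex.surjective p
  obtain ⟨s, hs⟩ : ∃ s : ℤ, s = if δ = true then 1 else -1 := ⟨_, rfl⟩
  obtain ⟨ρ, hρ⟩ := raag_hom (G := G) (Γ := Equiv.Perm ℤ) (fun w => if w = v then tr s else 1) (by
    intro u w huw
    by_cases h1 : u = v
    · have h2 : ¬ w = v := fun e => G.ne_of_adj huw (h1.trans e.symm)
      rw [if_neg h2, mul_one, one_mul]
    · rw [if_neg h1, mul_one, one_mul])
  obtain ⟨E, E1, E2, E3⟩ : ∃ E : V ×ₗ Bool → ℤ, E (toLex (v, true)) = s ∧ E (toLex (v, false)) = -s ∧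
      ∀ w γ, w ≠ v → E (toLex (w, γ)) = 0 := by
    refine ⟨fun q => if (ofLex q).1 = v then (if (ofLex q).2 = true then s else -s) else 0, ?_, ?_, ?_⟩
    · simp
    · simp
    · intro w γ h1
      simp [h1]
  refine ⟨ρ, E, ?_, ?_, ?_, ?_⟩
  · intro q _
    obtain ⟨⟨w, γ⟩, rfl⟩ := toLex.surjective q
    by_cases hw : w = v
    · subst hw
      cases γ
      · rw [t2, map_inv, hρ, if_pos rfl, tr_inv, E2]
      · rw [t1, hρ, if_pos rfl, E1]
    · rw [E3 w γ hw, tr_zero]
      cases γ
      · rw [t2, map_inv, hρ, if_neg hw, inv_one]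
      · rw [t1, hρ, if_neg hw]
  · cases δ
    · rw [E2, hs, if_neg (by simp)]; norm_num
    · rw [E1, hs, if_pos rfl]
  · intro q hq
    obtain ⟨⟨w, γ⟩, rfl⟩ := toLex.surjective q
    by_cases hw : w = v
    · subst hw
      have h3 : γ = δ := by
        by_contra h3
        have h4 := hU (mem_coe.2 hq) (mem_coe.2 hp) (fun h5 => h3 (congrArg (fun p => (ofLex p).2) h5))
        exact G.loopless.irrefl _ h4
      subst h3
      cases γ
      · rw [E2, hs, if_neg (by simp)]; norm_num
      · rw [E1, hs, if_pos rfl]; norm_num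
    · rw [E3 w γ hw]
  · intro q hq
    obtain ⟨⟨w, γ⟩, rfl⟩ := toLex.surjective q
    by_cases hw : w = v
    · subst hw
      have h3 : γ ≠ δ := by
        rintro rfl
        exact disjoint_left.1 hd hp hq
      cases γ <;> cases δ
      · exact absurd rfl h3
      · rw [E2, hs, if_pos rfl]; norm_num
      · rw [E1, hs, if_neg (by simp)]; norm_num
      · exact absurd rfl h3
    · rw [E3 w γ hw]

/-- proper actions of right-angled Artin groups -/
theorem raag_act {V : Type} [Fintype V] [LinearOrder V] {G : SimpleGraph V} (H : Subgroup (Raag G))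
    (hH : H.FiniteIndex) {X : Type} [TopologicalSpace X] [MulAction H X] [ContinuousConstSMul H X]
    [ProperlyDiscontinuousSMul H X] {n : ℕ} (e : X × X ≃ₜ (Fin (2 * n) → ℝ)) {i : ℕ} (hi : n < 2 * i) :
    Ex2 G Set.univ i := by
  by_contra h
  have h1 := fl_act ((fl_raag h).sub H hH) e
  omega

end Pool.Agent.V5helper75.BK
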