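import Pool.Agent.V5helper75.BK.Geo
import Pool.Agent.V5helper75.VO.Sub

/-!
# Project BK: the class of right-angled Coxeter groups with detecting flats
-/

set_option autoImplicit false
set_option linter.unusedSectionVars false

namespace Pool.Agent.V5helper75.BK

open Finset Pool.Agent.W907.SG Pool.Agent.W907.SM Pool.Agent.R782.Bal Pool.Agent.V5helper75.VO Pool.Agent.N504.RS
open Pool.Agent.TH652.Join (join ljoin)
open Pool.Agent.TH652.Above (lv_img lv_set lv_sub lv_univ lv_cone)

/-- special subgroups -/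
theorem Fl.emb {U V : Type} {G : SimpleGraph U} {K : SimpleGraph V} {i : ℕ} (h : Fl (W G) i) (φ : U → V)
    (hinj : Function.Injective φ) (hφ : ∀ a b, K.Adj (φ a) (φ b) ↔ G.Adj a b) : Fl (W K) i := by
  classical
  obtain ⟨ι, hι⟩ := exists_hom (K := G) (fun u => gen K (φ u)) (fun u => gen_sq K _)
    (fun u v huv => gen_comm ((hφ u v).2 huv))
  obtain ⟨f, hf⟩ : ∃ f : V → W G, f = fun v => if h : ∃ u, φ u = v then gen G h.choose else 1 := ⟨_, rfl⟩
  have hf1 : ∀ u, f (φ u) = gen G u := by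
    intro u
    have h1 : ∃ u', φ u' = φ u := ⟨u, rfl⟩
    rw [hf]
    dsimp only
    rw [dif_pos h1, hinj h1.choose_spec]
  have hf2 : ∀ v, (¬ ∃ u, φ u = v) → f v = 1 := by
    intro v h1
    rw [hf]
    dsimp only
    rw [dif_neg h1]
  obtain ⟨r, hr⟩ := exists_hom (K := K) f (fun v => by
    by_cases h1 : ∃ u, φ u = v
    · obtain ⟨u, rfl⟩ := h1
      rw [hf1, gen_sq]
    · rw [hf2 v h1, one_mul]) (fun v w hvw => by
    by_cases h1 : ∃ u, φ u = v
    · by_cases h2 : ∃ u, φ u = w
      · obtain ⟨u, rfl⟩ := h1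
        obtain ⟨u', rfl⟩ := h2
        rw [hf1, hf1]
        exact gen_comm ((hφ u u').1 hvw)
      · rw [hf2 w h2, mul_one, one_mul]
    · rw [hf2 v h1, mul_one, one_mul])
  refine h.push ι r fun x => ?_
  have h3 := hom_ext (K := G) (ρ := r.comp ι) (τ := MonoidHom.id _) (fun v => by
    rw [MonoidHom.comp_apply, hι, hr, hf1]
    rfl) x
  exact h3

/-- joins -/
theorem Fl.join {U V : Type} {G : SimpleGraph U} {H : SimpleGraph V} {i j : ℕ} (h : Fl (W G) i) (h' : Fl (W H) j) :
    Fl (W (join G H)) (i + j) := by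
  classical
  obtain ⟨a, ha⟩ := exists_hom (K := G) (Γ := W (Pool.Agent.TH652.Join.join G H)) (fun u => gen _ (Sum.inl u))
    (fun u => gen_sq _ _) (fun u v huv => gen_comm (K := Pool.Agent.TH652.Join.join G H) huv)
  obtain ⟨b, hb⟩ := exists_hom (K := H) (Γ := W (Pool.Agent.TH652.Join.join G H)) (fun u => gen _ (Sum.inr u))
    (fun u => gen_sq _ _) (fun u v huv => gen_comm (K := Pool.Agent.TH652.Join.join G H) huv)
  obtain ⟨r, hr⟩ := exists_hom (K := Pool.Agent.TH652.Join.join G H) (Γ := W G × W H)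
    (fun x => match x with
      | Sum.inl u => (gen G u, 1)
      | Sum.inr u => (1, gen H u)) (by
      rintro (u | u)
      · show ((gen G u, 1) : W G × W H) * (gen G u, 1) = 1
        rw [Prod.mk_mul_mk, gen_sq, one_mul]; rfl
      · show ((1, gen H u) : W G × W H) * (1, gen H u) = 1
        rw [Prod.mk_mul_mk, gen_sq, one_mul]; rfl) (by
      rintro (u | u) (v | v) huv
      · show ((gen G u, 1) : W G × W H) * (gen G v, 1) = (gen G v, 1) * (gen G u, 1)
        rw [Prod.mk_mul_mk, Prod.mk_mul_mk, gen_comm (K := G) huv]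
      · show ((gen G u, 1) : W G × W H) * (1, gen H v) = (1, gen H v) * (gen G u, 1)
        rw [Prod.mk_mul_mk, Prod.mk_mul_mk, mul_one, one_mul, mul_one, one_mul]
      · show ((1, gen H u) : W G × W H) * (gen G v, 1) = (gen G v, 1) * (1, gen H u)
        rw [Prod.mk_mul_mk, Prod.mk_mul_mk, mul_one, one_mul, mul_one, one_mul]
      · show ((1, gen H u) : W G × W H) * (1, gen H v) = (1, gen H v) * (1, gen H u)
        rw [Prod.mk_mul_mk, Prod.mk_mul_mk, gen_comm (K := H) huv])
  have hcom : ∀ x y, Commute (a x) (b y) := by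
    have h1 : ∀ x v, Commute (a x) (b (gen H v)) := by
      intro x v
      have h2 := hom_ext (K := G) (ρ := (MulAut.conj (b (gen H v))).toMonoidHom.comp a) (τ := a) (fun u => by
        show b (gen H v) * a (gen G u) * (b (gen H v))⁻¹ = a (gen G u)
        rw [mul_inv_eq_iff_eq_mul, ha, hb]
        exact gen_comm (K := Pool.Agent.TH652.Join.join G H) (u := Sum.inr v) (v := Sum.inl u) trivial) x
      have h3 : b (gen H v) * a x * (b (gen H v))⁻¹ = a x := h2
      rw [mul_inv_eq_iff_eq_mul] at h3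
      exact h3.symm
    intro x y
    have h2 := hom_ext (K := H) (ρ := (MulAut.conj (a x)).toMonoidHom.comp b) (τ := b) (fun u => by
      show a x * b (gen H u) * (a x)⁻¹ = b (gen H u)
      rw [mul_inv_eq_iff_eq_mul]
      exact h1 x u) y
    have h3 : a x * b y * (a x)⁻¹ = b y := h2
    rw [mul_inv_eq_iff_eq_mul] at h3
    exact h3
  refine (h.prod h').push (a.noncommCoprod b hcom) r ?_
  rintro ⟨x, y⟩
  rw [MonoidHom.noncommCoprod_apply, map_mul]
  have e1 : r (a x) = (x, 1) := hom_ext (K := G) (ρ := r.comp a) (τ := MonoidHom.inl _ _) (fun u => by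
    rw [MonoidHom.comp_apply, ha, hr]; rfl) x
  have e2 : r (b y) = (1, y) := hom_ext (K := H) (ρ := r.comp b) (τ := MonoidHom.inr _ _) (fun u => by
    rw [MonoidHom.comp_apply, hb, hr]; rfl) y
  rw [e1, e2, Prod.mk_mul_mk, mul_one, one_mul]

/-- The `ℓ²`-homology of the right-angled Coxeter group of `K` is detected by flats. -/
def Geo {V : Type} (K : SimpleGraph V) : Prop := ∀ i, ¬ LV K i → Fl (W K) i

theorem geo_iso {U V : Type} {G : SimpleGraph U} {K : SimpleGraph V} (e : Nonempty (G ≃g K)) (h : Geo G) :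
    Geo K := by
  intro i hi
  obtain ⟨e⟩ := e
  exact (h i fun h1 => hi (liso _ _ _ _ i ⟨e⟩ h1)).emb e e.injective fun a b => e.map_adj_iff

theorem geo_join {U V : Type} [Finite U] [Finite V] {G : SimpleGraph U} {H : SimpleGraph V} (h : Geo G)
    (h' : Geo H) : Geo (join G H) := by
  intro i hi
  by_contra h1
  refine hi (ljoin G H i fun p q hpq => ?_)
  by_contra h2
  rw [not_or] at h2
  subst hpq
  exact h1 ((h p h2.1).join (h' q h2.2))

theorem geo_glue {V : Type} [Finite V] (G : SimpleGraph V) (A B : Set V)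
    (hno : ∀ a ∈ A, a ∉ B → ∀ b ∈ B, b ∉ A → ¬ G.Adj a b)
    (h1 : Geo (G.induce A)) (h2 : Geo (G.induce B)) (h3 : ∀ j, LV (G.induce (A ∩ B)) j) :
    Geo (G.induce (A ∪ B)) := by
  intro i hi
  by_cases hA : LV (G.induce A) i
  · by_cases hB : LV (G.induce B) i
    · exact absurd (lv_glue G A B hno i hA hB fun j _ => h3 j) hi
    · exact (h2 i hB).emb (fun x => ⟨x.1, Or.inr x.2⟩) (fun x y h => Subtype.ext (Subtype.mk.inj h)) fun a b => Iff.rfl
  · exact (h1 i hA).emb (fun x => ⟨x.1, Or.inl x.2⟩) (fun x y h => Subtype.ext (Subtype.mk.inj h)) fun a b => Iff.rfl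

/-! ### Reflections of the integers -/

/-- the reflection `x ↦ 1 - x` -/
def ra : Equiv.Perm ℤ := ⟨fun x => 1 - x, fun x => 1 - x, fun x => by simp, fun x => by simp⟩

/-- the reflection `x ↦ - x` -/
def rb : Equiv.Perm ℤ := ⟨fun x => -x, fun x => -x, fun x => by simp, fun x => by simp⟩

theorem ra_sq : ra * ra = 1 := by
  ext x
  show 1 - (1 - x) = x
  ring

theorem rb_sq : rb * rb = 1 := by
  ext x
  show -(-x) = x
  ring

theorem ra_rb : ra * rb = tr 1 := by
  ext x
  show 1 - (-x) = x + 1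
  ring

theorem rb_ra : rb * ra = tr (-1) := by
  ext x
  show -(1 - x) = x + -1
  ring

/-- octahedralizations -/
theorem geo_oct {V : Type} [Fintype V] [LinearOrder V] (G : SimpleGraph V) : Geo (oct G) := by
  classical
  intro i hi
  refine ⟨V ×ₗ Bool, inferInstance, oct G,
    fun p => gen (oct G) p * gen (oct G) (toLex ((ofLex p).1, !(ofLex p).2)), fun h => hi (lv_oct h), ?_, ?_⟩
  · intro p q hpq
    have h1 : Commute (gen (oct G) p) (gen (oct G) q) := gen_comm hpq
    have h2 : Commute (gen (oct G) p) (gen (oct G) (toLex ((ofLex q).1, !(ofLex q).2))) :=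
      gen_comm (K := oct G) (show G.Adj (ofLex p).1 (ofLex q).1 from hpq)
    have h3 : Commute (gen (oct G) (toLex ((ofLex p).1, !(ofLex p).2))) (gen (oct G) q) :=
      gen_comm (K := oct G) (show G.Adj (ofLex p).1 (ofLex q).1 from hpq)
    have h4 : Commute (gen (oct G) (toLex ((ofLex p).1, !(ofLex p).2)))
        (gen (oct G) (toLex ((ofLex q).1, !(ofLex q).2))) :=
      gen_comm (K := oct G) (show G.Adj (ofLex p).1 (ofLex q).1 from hpq)
    exact (h1.mul_right h2).mul_left (h3.mul_right h4)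
  · intro U U' hU hU' hd p hp
    obtain ⟨⟨v, δ⟩, rfl⟩ := toLex.surjective p
    obtain ⟨f, f1, f2, f3⟩ : ∃ f : V ×ₗ Bool → Equiv.Perm ℤ, f (toLex (v, δ)) = ra ∧ f (toLex (v, !δ)) = rb ∧
        ∀ w γ, w ≠ v → f (toLex (w, γ)) = 1 := by
      refine ⟨fun q => if (ofLex q).1 = v then (if (ofLex q).2 = δ then ra else rb) else 1, ?_, ?_, ?_⟩
      · simp
      · cases δ <;> simp
      · intro w γ h
        simp [h]
    obtain ⟨E, E1, E2, E3⟩ : ∃ E : V ×ₗ Bool → ℤ, E (toLex (v, δ)) = 1 ∧ E (toLex (v, !δ)) = -1 ∧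
        ∀ w γ, w ≠ v → E (toLex (w, γ)) = 0 := by
      refine ⟨fun q => if (ofLex q).1 = v then (if (ofLex q).2 = δ then 1 else -1) else 0, ?_, ?_, ?_⟩
      · simp
      · cases δ <;> simp
      · intro w γ h
        simp [h]
    have hcase : ∀ q : V ×ₗ Bool, q = toLex (v, δ) ∨ q = toLex (v, !δ) ∨ ∃ w γ, w ≠ v ∧ q = toLex (w, γ) := by
      intro q
      obtain ⟨⟨w, γ⟩, rfl⟩ := toLex.surjective q
      by_cases hw : w = v
      · subst hw
        by_cases hγ : γ = δ
        · subst hγ; exact Or.inl rfl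
        · have : γ = !δ := by cases γ <;> cases δ <;> simp_all
          subst this
          exact Or.inr (Or.inl rfl)
      · exact Or.inr (Or.inr ⟨w, γ, hw, rfl⟩)
    obtain ⟨ρ, hρ⟩ := exists_hom (K := oct G) (Γ := Equiv.Perm ℤ) f (by
        intro q
        rcases hcase q with rfl | rfl | ⟨w, γ, hw, rfl⟩
        · rw [f1, ra_sq]
        · rw [f2, rb_sq]
        · rw [f3 w γ hw, one_mul]) (by
        intro q q' hqq
        rcases hcase q with rfl | rfl | ⟨w, γ, hw, rfl⟩
        · rcases hcase q' with rfl | rfl | ⟨w', γ', hw', rfl⟩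
          · exact absurd hqq (G.loopless.irrefl _)
          · exact absurd hqq (G.loopless.irrefl _)
          · rw [f3 w' γ' hw', mul_one, one_mul]
        · rcases hcase q' with rfl | rfl | ⟨w', γ', hw', rfl⟩
          · exact absurd hqq (G.loopless.irrefl _)
          · exact absurd hqq (G.loopless.irrefl _)
          · rw [f3 w' γ' hw', mul_one, one_mul]
        · rw [f3 w γ hw, mul_one, one_mul])
    refine ⟨ρ, E, ?_, E1.ge, ?_, ?_⟩
    · intro q _
      rcases hcase q with rfl | rfl | ⟨w, γ, hw, rfl⟩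
      · rw [E1, ← ra_rb, ← f1, ← f2, ← hρ, ← hρ, ← map_mul]
        rfl
      · have e1 : (!(!δ)) = δ := Bool.not_not δ
        rw [E2, ← rb_ra, ← f1, ← f2, ← hρ, ← hρ, ← map_mul]
        show ρ (gen (oct G) (toLex (v, !δ)) * gen (oct G) (toLex (v, !(!δ)))) = _
        rw [e1]
      · rw [E3 w γ hw, tr_zero, map_mul, hρ, hρ, f3 w γ hw, one_mul]
        exact f3 w _ hw
    · intro q hq
      rcases hcase q with rfl | rfl | ⟨w, γ, hw, rfl⟩
      · rw [E1]; exact zero_le_one
      · exfalso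
        have h4 := hU (mem_coe.2 hq) (mem_coe.2 hp) (by
          intro h5
          have h6 : (!δ) = δ := congrArg (fun p => (ofLex p).2) h5
          cases δ <;> simp at h6)
        exact G.loopless.irrefl _ h4
      · rw [E3 w γ hw]
    · intro q hq
      rcases hcase q with rfl | rfl | ⟨w, γ, hw, rfl⟩
      · exfalso
        exact disjoint_left.1 hd hp hq
      · rw [E2]; norm_num
      · rw [E3 w γ hw]

end Pool.Agent.V5helper75.BK
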