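import Pool.Agent.V5helper75.BK.Sub

/-!
# Project BK: proper actions on spaces whose square is a euclidean space
-/

set_option autoImplicit false
set_option linter.unusedSectionVars false

namespace Pool.Agent.V5helper75.BK

open Finset Pool.Agent.W907.SG Pool.Agent.W907.SM Pool.Agent.R782.Bal Pool.Agent.V5helper75.VO

/-- **Proper actions.** If `Γ` contains flats obstructing proper actions in dimensions less than `2 i` and acts
properly discontinuously on the space `X`, where `X × X` is homeomorphic to the euclidean space of dimension `2 n`,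
then `2 i ≤ n`. -/
theorem fl_act {Γ : Type} [Group Γ] {i : ℕ} (h : Fl Γ i) {X : Type} [TopologicalSpace X] [MulAction Γ X]
    [ContinuousConstSMul Γ X] [ProperlyDiscontinuousSMul Γ X] {n : ℕ} (e : X × X ≃ₜ (Fin (2 * n) → ℝ)) :
    2 * i ≤ n := by
  classical
  obtain ⟨V, hV, N, t, h1, h2, h3⟩ := h.prod h
  have : Fintype V := Fintype.ofFinite V
  have hT : TietzeExtension.{0} (X × X) := TietzeExtension.of_homeo e
  let α : Γ × Γ →* Equiv.Perm (X × X) :=
    { toFun := fun g => Equiv.prodCongr (MulAction.toPerm g.1) (MulAction.toPerm g.2)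
      map_one' := by
        ext x
        · show (1 : Γ) • x.1 = x.1
          rw [one_smul]
        · show (1 : Γ) • x.2 = x.2
          rw [one_smul]
      map_mul' := by
        intro g g'
        ext x
        · show (g.1 * g'.1) • x.1 = g.1 • g'.1 • x.1
          rw [mul_smul]
        · show (g.2 * g'.2) • x.2 = g.2 • g'.2 • x.2
          rw [mul_smul] }
  have hα : ∀ g, Continuous (α g) := fun g =>
    ((continuous_const_smul g.1).comp continuous_fst).prodMk ((continuous_const_smul g.2).comp continuous_snd)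
  have hprop : ∀ Q : Set (X × X), IsCompact Q → {g : Γ × Γ | (α g '' Q ∩ Q).Nonempty}.Finite := by
    intro Q hQ
    have hQ1 := hQ.image continuous_fst
    have hQ2 := hQ.image continuous_snd
    refine ((ProperlyDiscontinuousSMul.finite_disjoint_inter_image (Γ := Γ) hQ1 hQ1).prod
      (ProperlyDiscontinuousSMul.finite_disjoint_inter_image (Γ := Γ) hQ2 hQ2)).subset ?_
    rintro ⟨g, g'⟩ ⟨_, ⟨x, hx, rfl⟩, hx'⟩
    constructor
    · exact ⟨g • x.1, ⟨x.1, ⟨x, hx, rfl⟩, rfl⟩, ⟨_, hx', rfl⟩⟩
    · exact ⟨g' • x.2, ⟨x.2, ⟨x, hx, rfl⟩, rfl⟩, ⟨_, hx', rfl⟩⟩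
  have h4 := bkk (N := N) (t := t) α hα (e.symm 0) h2 h3 hprop e e.continuous e.injective
  by_contra h5
  exact h1 (obs_le h4 (by omega))

/-- **Theorem.** Q1 for subgroups of finite index of right-angled Coxeter groups with detecting flats. -/
theorem geo_act {V : Type} {K : SimpleGraph V} (hK : Geo K) (H : Subgroup (W K)) (hH : H.FiniteIndex) {X : Type}
    [TopologicalSpace X] [MulAction H X] [ContinuousConstSMul H X] [ProperlyDiscontinuousSMul H X] {n : ℕ}
    (e : X × X ≃ₜ (Fin (2 * n) → ℝ)) {i : ℕ} (hi : n < 2 * i) : LV K i := by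
  by_contra h
  have h1 := fl_act ((hK i h).sub H hH) e
  omega

end Pool.Agent.V5helper75.BK
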