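import Pool.Agent.V5helper75.BK.Map
import Pool.Agent.V5helper75.VO.Det

/-!
# Project BK: the obstruction to proper actions
-/

set_option autoImplicit false
set_option linter.unusedSectionVars false

namespace Pool.Agent.V5helper75.BK

open Finset Pool.Agent.W555.KS Pool.Agent.Y131.KS Pool.Agent.R782.Bal

/-- the translation of the integers by `k` -/
def tr (k : ℤ) : Equiv.Perm ℤ := Equiv.addRight k

theorem tr_apply (k x : ℤ) : tr k x = x + k := rfl

theorem tr_zero : tr 0 = 1 := by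
  ext x; rw [tr_apply, add_zero]; rfl

theorem tr_mul (k l : ℤ) : tr k * tr l = tr (k + l) := by
  ext x; rw [Equiv.Perm.mul_apply, tr_apply, tr_apply, tr_apply]; ring

theorem tr_pow (k : ℤ) (n : ℕ) : tr k ^ n = tr (n * k) := by
  induction n with
  | zero => rw [pow_zero, Nat.cast_zero, zero_mul, tr_zero]
  | succ n ih => rw [pow_succ, ih, tr_mul]; congr 1; push_cast; ring

theorem tr_inv (k : ℤ) : (tr k)⁻¹ = tr (-k) := by
  rw [inv_eq_iff_mul_eq_one, tr_mul, add_neg_cancel, tr_zero]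

section

variable {V : Type} [Fintype V] [DecidableEq V] {Γ : Type} [Group Γ]

/-- Detection: for disjoint simplices `U`, `U'` of the flag complex of `N` and `u ∈ U` there is an action of `Γ` on the
integers for which the elements `t w` (`w ∈ U`) are translations by nonnegative numbers, the elements `t w`
(`w ∈ U'`) are translations by nonpositive numbers, and `t u` is a nontrivial translation. -/
def Dt {V : Type} {Γ : Type} [Group Γ] (N : SimpleGraph V) (t : V → Γ) : Prop :=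
  ∀ U U' : Finset V, N.IsClique (U : Set V) → N.IsClique (U' : Set V) → Disjoint U U' → ∀ u ∈ U,
    ∃ (ρ : Γ →* Equiv.Perm ℤ) (ε : V → ℤ), (∀ w, w ∈ U ∨ w ∈ U' → ρ (t w) = tr (ε w)) ∧ 1 ≤ ε u ∧
      (∀ w ∈ U, 0 ≤ ε w) ∧ ∀ w ∈ U', ε w ≤ 0

theorem rho_pw {t : V → Γ} {ρ : Γ →* Equiv.Perm ℤ} {ε : V → ℤ} {n : V → ℕ}
    (h : ∀ w, n w ≠ 0 → ρ (t w) = tr (ε w)) : ρ (pw t n) = tr (∑ v, (n v : ℤ) * ε v) := by
  have h1 : ∀ l : List V, ρ (pwl t n l) = tr ((l.map fun v => (n v : ℤ) * ε v).sum) := by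
    intro l
    induction l with
    | nil => rw [pwl, map_one, List.map_nil, List.sum_nil, tr_zero]
    | cons v l ih =>
      rw [pwl, map_mul, ih, List.map_cons, List.sum_cons, ← tr_mul, map_pow]
      congr 1
      by_cases hv : n v = 0
      · rw [hv, pow_zero, Nat.cast_zero, zero_mul, tr_zero]
      · rw [h v hv, tr_pow]
  rw [pw, h1, Finset.sum_map_toList]

/-- separation -/
theorem sep {N : SimpleGraph V} {t : V → Γ} (hD : Dt N t) {E : Set Γ} (hE : E.Finite) :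
    ∃ C : ℕ, ∀ n n' : V → ℕ, N.IsClique {v | n v ≠ 0} → N.IsClique {v | n' v ≠ 0} →
      (∀ v, n v = 0 ∨ n' v = 0) → (pw t n')⁻¹ * pw t n ∈ E → ∀ u, n u ≤ C := by
  classical
  have h : ∀ p : Finset V × Finset V × V, ∃ (ρ : Γ →* Equiv.Perm ℤ) (ε : V → ℤ),
      (N.IsClique (p.1 : Set V) ∧ N.IsClique (p.2.1 : Set V) ∧ Disjoint p.1 p.2.1 ∧ p.2.2 ∈ p.1) →
      (∀ w, w ∈ p.1 ∨ w ∈ p.2.1 → ρ (t w) = tr (ε w)) ∧ 1 ≤ ε p.2.2 ∧
      (∀ w ∈ p.1, 0 ≤ ε w) ∧ ∀ w ∈ p.2.1, ε w ≤ 0 := by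
    intro p
    by_cases hp : N.IsClique (p.1 : Set V) ∧ N.IsClique (p.2.1 : Set V) ∧ Disjoint p.1 p.2.1 ∧ p.2.2 ∈ p.1
    · obtain ⟨ρ, ε, h1⟩ := hD p.1 p.2.1 hp.1 hp.2.1 hp.2.2.1 p.2.2 hp.2.2.2
      exact ⟨ρ, ε, fun _ => h1⟩
    · exact ⟨1, 0, fun h' => absurd h' hp⟩
  choose ρ ε hρ using h
  refine ⟨univ.sup fun p => hE.toFinset.sup fun g => (ρ p g 0).natAbs, fun n n' hn hn' hdis hg u => ?_⟩
  by_cases hu : n u = 0
  · rw [hu]; exact Nat.zero_le _
  obtain ⟨p, hp⟩ : ∃ p : Finset V × Finset V × V, p = (univ.filter fun v => n v ≠ 0, univ.filter fun v => n' v ≠ 0, u) :=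
    ⟨_, rfl⟩
  have hp1 : ∀ v, v ∈ p.1 ↔ n v ≠ 0 := fun v => by rw [hp]; simp
  have hp2 : ∀ v, v ∈ p.2.1 ↔ n' v ≠ 0 := fun v => by rw [hp]; simp
  have hp3 : p.2.2 = u := by rw [hp]
  obtain ⟨h1, h2, h3, h4⟩ := hρ p ⟨by
      intro a ha b hb hab
      exact hn ((hp1 a).1 ha) ((hp1 b).1 hb) hab, by
      intro a ha b hb hab
      exact hn' ((hp2 a).1 ha) ((hp2 b).1 hb) hab, by
      rw [disjoint_left]
      intro a ha hb
      exact (hdis a).elim ((hp1 a).1 ha) ((hp2 a).1 hb), by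
      rw [hp1, hp3]; exact hu⟩
  rw [hp3] at h2
  have e1 : ρ p (pw t n) = tr (∑ v, (n v : ℤ) * ε p v) := rho_pw fun w hw => h1 w (Or.inl ((hp1 w).2 hw))
  have e2 : ρ p (pw t n') = tr (∑ v, (n' v : ℤ) * ε p v) := rho_pw fun w hw => h1 w (Or.inr ((hp2 w).2 hw))
  have e3 : ρ p ((pw t n')⁻¹ * pw t n) 0 = (∑ v, (n v : ℤ) * ε p v) - ∑ v, (n' v : ℤ) * ε p v := by
    rw [map_mul, map_inv, e1, e2, tr_inv, tr_mul, tr_apply]
    ring
  have e4 : (n u : ℤ) ≤ ∑ v, (n v : ℤ) * ε p v := by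
    have h5 : ∀ v ∈ univ, 0 ≤ (n v : ℤ) * ε p v := by
      intro v _
      by_cases hv : n v = 0
      · rw [hv, Nat.cast_zero, zero_mul]
      · exact mul_nonneg (Nat.cast_nonneg _) (h3 v ((hp1 v).2 hv))
    refine le_trans ?_ (single_le_sum h5 (mem_univ u))
    have h6 : (0 : ℤ) ≤ n u := Nat.cast_nonneg _
    nlinarith
  have e5 : ∑ v, (n' v : ℤ) * ε p v ≤ 0 := by
    refine sum_nonpos fun v _ => ?_
    by_cases hv : n' v = 0
    · rw [hv, Nat.cast_zero, zero_mul]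
    · exact mul_nonpos_of_nonneg_of_nonpos (Nat.cast_nonneg _) (h4 v ((hp2 v).2 hv))
  have e6 : n u ≤ (ρ p ((pw t n')⁻¹ * pw t n) 0).natAbs := by
    rw [e3]
    omega
  refine e6.trans ?_
  refine le_trans (le_sup (f := fun g => (ρ p g 0).natAbs) (hE.mem_toFinset.2 hg)) ?_
  exact le_sup (f := fun p => hE.toFinset.sup fun g => (ρ p g 0).natAbs) (mem_univ p)

end

/-- the positive part, scaled and renumbered -/
noncomputable def pp {V : Type} {n : ℕ} (e : V ≃ Fin n) (R : ℕ) (x : Fin n → ℝ) (v : V) : ℝ := R * max (x (e v)) 0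

theorem pp_cont {V : Type} {n : ℕ} (e : V ≃ Fin n) (R : ℕ) : Continuous (pp e R) :=
  continuous_pi fun v => continuous_const.mul ((continuous_apply (e v)).max continuous_const)

/-- **The obstruction to proper actions** (Bestvina, Kapovich and Kleiner, for cones over flag complexes which are
unions of orthants of flats). -/
theorem bkk {V : Type} [Fintype V] {N : SimpleGraph V} {Γ : Type} [Group Γ] {t : V → Γ} {X : Type}
    [TopologicalSpace X] [TietzeExtension.{0} X] (α : Γ →* Equiv.Perm X) (hα : ∀ g, Continuous (α g)) (x0 : X)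
    (hcomm : ∀ u w, N.Adj u w → t u * t w = t w * t u) (hD : Dt N t)
    (hprop : ∀ Q : Set X, IsCompact Q → {g : Γ | (α g '' Q ∩ Q).Nonempty}.Finite) {d : ℕ}
    (h : X → (Fin d → ℝ)) (hc : Continuous h) (hi : Function.Injective h) : Obs N (d + 1) := by
  classical
  intro n e
  refine vk_of_vk2 (vk2_of_odd (clF_cx N e) ?_)
  obtain ⟨Q, hQ, hmap⟩ := exists_map (t := t) (N := N) hα x0 hcomm
  obtain ⟨C, hC⟩ := sep hD (hprop Q hQ)
  obtain ⟨φ, hφ, hφ'⟩ := hmap (n * (C + 1))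
  obtain ⟨R, hR⟩ : ∃ R : ℕ, R = n * (C + 1) := ⟨_, rfl⟩
  rw [← hR] at hφ'
  -- the coordinates
  have hle : ∀ x ∈ dJoin (clF N e), ∀ v, 0 ≤ pp e R x v ∧ pp e R x v ≤ R := by
    intro x hx v
    have h1 : |x (e v)| ≤ 1 := by
      rw [← hx.1]
      exact single_le_sum (f := fun i => |x i|) (fun i _ => abs_nonneg _) (mem_univ (e v))
    have h2 : max (x (e v)) 0 ≤ 1 := max_le (le_trans (le_abs_self _) h1) zero_le_one
    have h3 : (0 : ℝ) ≤ max (x (e v)) 0 := le_max_right _ _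
    have h4 : (0 : ℝ) ≤ R := Nat.cast_nonneg _
    refine ⟨mul_nonneg h4 h3, ?_⟩
    calc (R : ℝ) * max (x (e v)) 0 ≤ R * 1 := mul_le_mul_of_nonneg_left h2 h4
      _ = R := mul_one _
  have hcl : ∀ x ∈ dJoin (clF N e), N.IsClique {v | pp e R x v ≠ 0} := by
    intro x hx
    have h1 := mem_clF.1 hx.2.1
    refine h1.subset fun v hv => ?_
    rw [mem_coe, mem_map]
    refine ⟨e v, ?_, e.symm_apply_apply v⟩
    rw [mem_filter]
    refine ⟨mem_univ _, ?_⟩
    by_contra h2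
    apply hv
    show (R : ℝ) * max (x (e v)) 0 = 0
    rw [max_eq_right (not_lt.1 h2), mul_zero]
  have hneg : ∀ x ∈ dJoin (clF N e), -x ∈ dJoin (clF N e) := by
    rintro x ⟨h1, h2, h3⟩
    refine ⟨by simpa using h1, by simpa using h3, by simpa using h2⟩
  -- the main estimate
  have key : ∀ x ∈ dJoin (clF N e), φ (pp e R x) = φ (pp e R (-x)) → ∀ i, ¬ (C + 1 : ℝ) ≤ R * x i := by
    intro x hx heq i hi'
    obtain ⟨q, hq, e1⟩ := hφ' _ (hle x hx) (hcl x hx)
    obtain ⟨q', hq', e2⟩ := hφ' _ (hle _ (hneg x hx)) (hcl _ (hneg x hx))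
    rw [e1, e2] at heq
    have h1 : (pw t fun v => ⌊pp e R (-x) v⌋₊)⁻¹ * (pw t fun v => ⌊pp e R x v⌋₊) ∈
        {g : Γ | (α g '' Q ∩ Q).Nonempty} := by
      refine ⟨q', ⟨q, hq, ?_⟩, hq'⟩
      rw [map_mul, Equiv.Perm.mul_apply, heq, ← Equiv.Perm.mul_apply, ← map_mul, inv_mul_cancel, map_one]
      rfl
    have h2 : ∀ x ∈ dJoin (clF N e), N.IsClique {v | ⌊pp e R x v⌋₊ ≠ 0} := by
      intro x hx
      refine (hcl x hx).subset fun v hv => ?_
      intro h3
      apply hv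
      show ⌊pp e R x v⌋₊ = 0
      rw [h3, Nat.floor_zero]
    have h3 := hC _ _ (h2 x hx) (h2 _ (hneg x hx)) (fun v => ?_) h1 (e.symm i)
    · have h4 : (C + 1 : ℕ) ≤ ⌊pp e R x (e.symm i)⌋₊ := by
        refine Nat.le_floor ?_
        show ((C + 1 : ℕ) : ℝ) ≤ R * max (x (e (e.symm i))) 0
        rw [e.apply_symm_apply]
        push_cast
        refine hi'.trans (mul_le_mul_of_nonneg_left (le_max_left _ _) (Nat.cast_nonneg _))
      omega
    · rcases le_total (x (e v)) 0 with h4 | h4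
      · left
        show ⌊(R : ℝ) * max (x (e v)) 0⌋₊ = 0
        rw [max_eq_right h4, mul_zero, Nat.floor_zero]
      · right
        show ⌊(R : ℝ) * max (-(x (e v))) 0⌋₊ = 0
        rw [max_eq_right (by linarith), mul_zero, Nat.floor_zero]
  refine ⟨fun x => h (φ (pp e R x)) - h (φ (pp e R (-x))), ?_, fun x hx => ⟨?_, fun h0 => ?_⟩⟩
  · refine Continuous.continuousOn ?_
    exact (hc.comp (hφ.comp (pp_cont e R))).sub (hc.comp (hφ.comp ((pp_cont e R).comp continuous_neg)))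
  · dsimp only
    rw [neg_neg, neg_sub]
  · have h1 : φ (pp e R x) = φ (pp e R (-x)) := hi (sub_eq_zero.1 h0)
    have h2 := key x hx h1
    have h3 := key (-x) (hneg x hx) (by rw [neg_neg]; exact h1.symm)
    have h4 : ∀ i, (R : ℝ) * |x i| < C + 1 := by
      intro i
      rcases abs_choice (x i) with h5 | h5
      · rw [h5]; exact not_le.1 (h2 i)
      · rw [h5]; exact not_le.1 (h3 i)
    have h5 : (R : ℝ) * ∑ i, |x i| = R := by rw [hx.1, mul_one]
    have hn : 0 < n := by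
      rcases Nat.eq_zero_or_pos n with h6 | h6
      · exfalso
        have h7 := hx.1
        subst h6
        rw [Fin.sum_univ_zero] at h7
        exact zero_ne_one h7
      · exact h6
    have : Nonempty (Fin n) := ⟨⟨0, hn⟩⟩
    rw [mul_sum] at h5
    have h6 : ∑ i, (R : ℝ) * |x i| < ∑ i : Fin n, ((C : ℝ) + 1) :=
      sum_lt_sum_of_nonempty univ_nonempty fun i _ => h4 i
    rw [h5, sum_const, card_univ, Fintype.card_fin, nsmul_eq_mul, hR] at h6
    push_cast at h6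
    exact lt_irrefl _ h6

end Pool.Agent.V5helper75.BK
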