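import Pool.Agent.V5helper75.BK.Two

/-!
# Project BK: the class of graphs
-/

set_option autoImplicit false
set_option linter.unusedSectionVars false

namespace Pool.Agent.V5helper75.BK

open Finset Pool.Agent.W907.SG Pool.Agent.W907.SM Pool.Agent.R782.Bal Pool.Agent.V5helper75.VO
open Pool.Agent.TH652.Join (join ljoin)
open Pool.Agent.TH652.Above (lv_univ)
open Pool.Agent.TH652.Glue (lglue)

/-- The class `FG` of finite graphs. -/
inductive FG : ∀ {V : Type}, SimpleGraph V → Prop
  /-- the graphs `K` for which the `ℓ²`-homology of the right-angled Coxeter group `W K` vanishes in all degrees `≥ 2` -/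
  | base {V : Type} [Fintype V] [LinearOrder V] (K : SimpleGraph V) : (∀ i : ℕ, 2 ≤ i → L2Van K i) → FG K
  /-- isomorphic graphs -/
  | iso {V U : Type} (G : SimpleGraph V) (K : SimpleGraph U) : Nonempty (G ≃g K) → FG G → FG K
  /-- joins; `W (join G H) = W G × W H` -/
  | join {V U : Type} (G : SimpleGraph V) (H : SimpleGraph U) : FG G → FG H → FG (join G H)
  /-- unions of two full subgraphs, without edges between the complements, if the `ℓ²`-homology of the intersection
  vanishes in all degrees (for example, if the intersection is a suspension) -/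
  | glue {V : Type} (K : SimpleGraph V) (A B : Set V) : A ∪ B = Set.univ →
      (∀ a ∈ A, a ∉ B → ∀ b ∈ B, b ∉ A → ¬ K.Adj a b) → FG (K.induce A) → FG (K.induce B) →
      (∀ (i : ℕ) [Fintype ↥(A ∩ B)] [LinearOrder ↥(A ∩ B)], L2Van (K.induce (A ∩ B)) i) → FG K
  /-- unions of two full subgraphs, without edges between the complements, if the intersection is in the class and
  there are three vertices `a`, `b`, `c` adjacent to all the vertices of the intersection such that `b` is adjacent
  neither to `a` nor to `c` (for example, disjoint unions of two graphs with at least three vertices) -/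
  | tripod {V : Type} (K : SimpleGraph V) (A B : Set V) (a b c : V) : A ∪ B = Set.univ →
      (∀ a ∈ A, a ∉ B → ∀ b ∈ B, b ∉ A → ¬ K.Adj a b) → FG (K.induce A) → FG (K.induce B) → FG (K.induce (A ∩ B)) →
      a ≠ b → c ≠ b → a ≠ c → ¬ K.Adj a b → ¬ K.Adj c b →
      (∀ x ∈ A ∩ B, K.Adj a x ∧ K.Adj b x ∧ K.Adj c x) → FG K
  /-- substitution: the vertices `v` of an arbitrary finite graph `G` are replaced by graphs `H v` of the class which
  are not complete; `W (sbt G H)` is the graph product of the groups `W (H v)` over `G` -/
  | subst {V : Type} [Finite V] {U : V → Type} (G : SimpleGraph V) (H : ∀ v, SimpleGraph (U v)) : (∀ v, H v ≠ ⊤) →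
      (∀ v, FG (H v)) → FG (sbt G H)

theorem FG.main {V : Type} {K : SimpleGraph V} (h : FG K) : Finite V ∧ Geo K := by
  classical
  induction h with
  | @base V _ _ K h => exact ⟨inferInstance, geo_base fun i hi => lv_of (h i hi)⟩
  | @iso V U G K e _ ih =>
    have := ih.1
    exact ⟨Finite.of_equiv V e.some.toEquiv, geo_iso e ih.2⟩
  | @join V U G H _ _ ih1 ih2 =>
    have := ih1.1
    have := ih2.1
    exact ⟨inferInstance, geo_join ih1.2 ih2.2⟩
  | @glue V K A B hAB hno _ _ hI ih1 ih2 =>
    have h1 := ih1.1
    have h2 := ih2.1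
    have hfin : Finite V := by
      have h3 : (Set.univ : Set V).Finite := by
        rw [← hAB]
        exact (Set.toFinite A).union (Set.toFinite B)
      exact Set.finite_univ_iff.1 h3
    refine ⟨hfin, ?_⟩
    have h4 := geo_glue K A B hno ih1.2 ih2.2 fun j _ _ => hI j
    rw [hAB] at h4
    exact geo_iso ⟨SimpleGraph.induceUnivIso K⟩ h4
  | @tripod V K A B a b c hAB hno _ _ _ hab hcb hac nab ncb hI ih1 ih2 ih3 =>
    have h1 := ih1.1
    have h2 := ih2.1
    have hfin : Finite V := by
      have h3 : (Set.univ : Set V).Finite := by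
        rw [← hAB]
        exact (Set.toFinite A).union (Set.toFinite B)
      exact Set.finite_univ_iff.1 h3
    exact ⟨hfin, geo_glue3 K A B hAB hno ih1.2 ih2.2 ih3.2 hab hcb hac nab ncb hI⟩
  | @subst V _ U G H hn _ ih =>
    have : ∀ v, Finite (U v) := fun v => (ih v).1
    exact ⟨inferInstance, geo_sbt G H hn fun v => (ih v).2⟩

/-- graphs without edges are in the class -/
theorem lv_edgeless {V : Type} [Finite V] {K : SimpleGraph V} (h : ∀ a b, ¬ K.Adj a b) (i : ℕ) (hi : 2 ≤ i) :
    LV K i := by
  classical
  have : Fintype V := Fintype.ofFinite V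
  rw [← lv_univ]
  have key : ∀ S : Finset V, LV (K.induce (S : Set V)) i := by
    intro S
    induction S using Finset.induction_on with
    | empty =>
      have : IsEmpty ((∅ : Finset V) : Set V) := ⟨fun x => absurd x.2 (by simp)⟩
      exact lempty _ _ i (by omega)
    | insert v S hv ih =>
      rw [coe_insert, Set.insert_eq]
      refine lv_glue K {v} (S : Set V) (fun a _ _ b _ _ => h a b) i ?_ ih fun j hj => ?_
      · refine lv_complete (fun a b hab => ?_) i (by omega)
        exact absurd (Subtype.ext (a.2.trans b.2.symm)) hab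
      · have : IsEmpty (({v} ∩ (S : Set V) : Set V)) := by
          refine ⟨fun x => ?_⟩
          have h1 := x.2.1
          have h2 := x.2.2
          rw [Set.mem_singleton_iff] at h1
          rw [h1] at h2
          exact hv h2
        exact lempty _ _ j (by omega)
  have h1 := key univ
  rw [coe_univ] at h1
  exact h1

/-- the octahedralization of every finite graph is in the class -/
theorem fg_oct {V : Type} [Fintype V] [LinearOrder V] (G : SimpleGraph V) : FG (oct G) := by
  classical
  have h1 : FG (⊥ : SimpleGraph Bool) := FG.base _ fun i hi => lv_edgeless (fun a b h => h) i hi _ _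
  have h2 : FG (sbt G (fun _ : V => (⊥ : SimpleGraph Bool))) := by
    refine FG.subst G _ (fun v h => ?_) fun _ => h1
    have h3 : (⊤ : SimpleGraph Bool).Adj true false := by simp
    rw [← h] at h3
    exact h3
  refine FG.iso _ _ ⟨?_⟩ h2
  refine { toEquiv := (Equiv.sigmaEquivProd V Bool).trans toLex, map_rel_iff' := ?_ }
  rintro ⟨v, ε⟩ ⟨w, δ⟩
  show G.Adj v w ↔ _
  by_cases hvw : v = w
  · subst hvw
    rw [sbt_same]
    exact iff_of_false (G.loopless.irrefl _) (fun h => h)
  · exact (sbt_ne hvw _ _).symm

end Pool.Agent.V5helper75.BK
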