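import Mathlib

/-!
# Project BK: continuous maps from cones over flag complexes to spaces with group actions
-/

set_option autoImplicit false
set_option linter.unusedSectionVars false

namespace Pool.Agent.V5helper75.BK

open Finset

/-- gluing finitely many maps on closed sets and extending to the whole space -/
theorem glue_ext {Y : Type} [TopologicalSpace Y] [NormalSpace Y] {X : Type} [TopologicalSpace X]
    [TietzeExtension.{0} X] (x0 : X) {ι : Type} [Finite ι] (F : ι → Set Y) (hF : ∀ i, IsClosed (F i))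
    (f : ι → Y → X) (hf : ∀ i, ContinuousOn (f i) (F i))
    (hag : ∀ i j y, y ∈ F i → y ∈ F j → f i y = f j y) :
    ∃ g : Y → X, Continuous g ∧ ∀ i, ∀ y ∈ F i, g y = f i y := by
  classical
  obtain ⟨g0, hg0⟩ : ∃ g0 : Y → X, ∀ i, ∀ y ∈ F i, g0 y = f i y := by
    refine ⟨fun y => if h : ∃ i, y ∈ F i then f h.choose y else x0, fun i y hy => ?_⟩
    have h : ∃ i, y ∈ F i := ⟨i, hy⟩
    dsimp only
    rw [dif_pos h]
    exact hag _ _ _ h.choose_spec hy
  have h1 : ContinuousOn g0 (⋃ i, F i) :=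
    (locallyFinite_of_finite F).continuousOn_iUnion hF fun i => (hf i).congr fun y hy => hg0 i y hy
  obtain ⟨g, hg⟩ := ContinuousMap.exists_restrict_eq (isClosed_iUnion_of_finite hF)
    (⟨(⋃ i, F i).domRestrict g0, continuousOn_iff_continuous_domRestrict.1 h1⟩ : C(↥(⋃ i, F i), X))
  refine ⟨g, g.continuous, fun i y hy => ?_⟩
  rw [← hg0 i y hy]
  have h2 := congrArg (fun k => k ⟨y, Set.mem_iUnion.2 ⟨i, hy⟩⟩) hg
  exact h2

section

variable {V : Type} [Fintype V] [DecidableEq V]

/-- the cube with the support `σ` -/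
def box (σ : Finset V) : Set (V → ℝ) := {y | (∀ v, 0 ≤ y v ∧ y v ≤ 1) ∧ ∀ v, v ∉ σ → y v = 0}

/-- the unit vector -/
def un (v : V) : V → ℝ := Pi.single v 1

theorem un_same (v : V) : un v v = 1 := by simp [un]

theorem un_ne {v w : V} (h : w ≠ v) : un v w = 0 := by simp [un, h]

theorem box_closed (σ : Finset V) : IsClosed (box σ) := by
  have h1 : box σ = (⋂ v, {y : V → ℝ | 0 ≤ y v ∧ y v ≤ 1}) ∩ ⋂ v, ⋂ (_ : v ∉ σ), {y : V → ℝ | y v = 0} := by
    ext y
    simp only [box, Set.mem_ofPred_eq, Set.mem_inter_iff, Set.mem_iInter]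
  rw [h1]
  refine (isClosed_iInter fun v => ?_).inter (isClosed_iInter fun v => isClosed_iInter fun _ => ?_)
  · exact (isClosed_le continuous_const (continuous_apply v)).inter (isClosed_le (continuous_apply v) continuous_const)
  · exact isClosed_eq (continuous_apply v) continuous_const

theorem box_compact (σ : Finset V) : IsCompact (box σ) := by
  have h1 : IsCompact (Set.pi Set.univ fun _ : V => Set.Icc (0 : ℝ) 1) := isCompact_univ_pi fun _ => isCompact_Icc
  refine h1.of_isClosed_subset (box_closed σ) fun y hy v _ => ?_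
  exact hy.1 v

theorem box_erase {σ : Finset V} {y : V → ℝ} {v : V} (hy : y ∈ box σ) (h : y v = 0) : y ∈ box (σ.erase v) := by
  refine ⟨hy.1, fun w hw => ?_⟩
  by_cases hwv : w = v
  · rw [hwv]; exact h
  · exact hy.2 w fun hw' => hw (mem_erase.2 ⟨hwv, hw'⟩)

theorem box_sub {σ : Finset V} {y : V → ℝ} {v : V} (hy : y ∈ box σ) (h : y v = 1) :
    y - un v ∈ box (σ.erase v) := by
  have h1 : ∀ w, w ≠ v → (y - un v) w = y w := fun w hw => by
    rw [Pi.sub_apply, un_ne hw, sub_zero]
  have h2 : (y - un v) v = 0 := by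
    rw [Pi.sub_apply, un_same, h, sub_self]
  refine ⟨fun w => ?_, fun w hw => ?_⟩
  · by_cases hwv : w = v
    · rw [hwv, h2]; exact ⟨le_refl _, zero_le_one⟩
    · rw [h1 w hwv]; exact hy.1 w
  · by_cases hwv : w = v
    · rw [hwv, h2]
    · rw [h1 w hwv]; exact hy.2 w fun hw' => hw (mem_erase.2 ⟨hwv, hw'⟩)

variable {Γ X : Type} [Group Γ] [TopologicalSpace X] [TietzeExtension.{0} X] (α : Γ →* Equiv.Perm X)
  (t : V → Γ)

/-- the conditions on the faces of the cube `σ` -/
def Fc (ψ : Finset V → (V → ℝ) → X) (σ : Finset V) : Prop :=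
  Continuous (ψ σ) ∧ ∀ v ∈ σ, ∀ y ∈ box σ, (y v = 0 → ψ σ y = ψ (σ.erase v) y) ∧
    (y v = 1 → ψ σ y = α (t v) (ψ (σ.erase v) (y - un v)))

variable {α t}

theorem extend_cube (hα : ∀ g, Continuous (α g)) (x0 : X) {N : SimpleGraph V}
    (hcomm : ∀ u w, N.Adj u w → t u * t w = t w * t u) {σ : Finset V} (hσ : N.IsClique (σ : Set V))
    (ψ : Finset V → (V → ℝ) → X) (h : ∀ v ∈ σ, Fc α t ψ (σ.erase v)) :
    ∃ g : (V → ℝ) → X, Continuous g ∧ ∀ v ∈ σ, ∀ y ∈ box σ, (y v = 0 → g y = ψ (σ.erase v) y) ∧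
      (y v = 1 → g y = α (t v) (ψ (σ.erase v) (y - un v))) := by
  obtain ⟨F, hF⟩ : ∃ F : {v // v ∈ σ} × Bool → Set (V → ℝ),
    F = fun i => {y | y ∈ box σ ∧ y i.1.1 = if i.2 = true then 1 else 0} := ⟨_, rfl⟩
  obtain ⟨f, hf⟩ : ∃ f : {v // v ∈ σ} × Bool → (V → ℝ) → X,
    f = fun i y => if i.2 = true then α (t i.1.1) (ψ (σ.erase i.1.1) (y - un i.1.1)) else ψ (σ.erase i.1.1) y :=
    ⟨_, rfl⟩
  obtain ⟨g, hg, hg'⟩ : ∃ g : (V → ℝ) → X, Continuous g ∧ ∀ i, ∀ y ∈ F i, g y = f i y := by
    refine glue_ext x0 F ?_ f ?_ ?_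
    · intro i
      rw [hF]
      exact (box_closed σ).inter (isClosed_eq (continuous_apply _) continuous_const)
    · rintro ⟨⟨v, hv⟩, ε⟩
      rw [hf]
      refine Continuous.continuousOn ?_
      cases ε
      · exact (h v hv).1
      · exact (hα _).comp ((h v hv).1.comp (continuous_id.sub continuous_const))
    · rintro ⟨⟨v, hv⟩, ε⟩ ⟨⟨w, hw⟩, δ⟩ y hy1 hy2
      rw [hF] at hy1 hy2
      obtain ⟨hy, hyv⟩ := hy1
      obtain ⟨_, hyw⟩ := hy2
      rw [hf]
      dsimp only at hyv hyw ⊢
      by_cases hvw : v = w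
      · subst hvw
        rw [hyv] at hyw
        have : ε = δ := by
          cases ε <;> cases δ
          · rfl
          · simp at hyw
          · simp at hyw
          · rfl
        rw [this]
      · have hw' : w ∈ σ.erase v := mem_erase.2 ⟨Ne.symm hvw, hw⟩
        have hv' : v ∈ σ.erase w := mem_erase.2 ⟨hvw, hv⟩
        have e1 : (y - un v) w = y w := by rw [Pi.sub_apply, un_ne (Ne.symm hvw), sub_zero]
        have e2 : (y - un w) v = y v := by rw [Pi.sub_apply, un_ne hvw, sub_zero]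
        have e3 : (σ.erase v).erase w = (σ.erase w).erase v := erase_right_comm
        cases ε <;> cases δ
        · have hyv' : y v = 0 := hyv
          have hyw' : y w = 0 := hyw
          show ψ (σ.erase v) y = ψ (σ.erase w) y
          rw [((h v hv).2 w hw' y (box_erase hy hyv')).1 hyw', ((h w hw).2 v hv' y (box_erase hy hyw')).1 hyv', e3]
        · have hyv' : y v = 0 := hyv
          have hyw' : y w = 1 := hyw
          show ψ (σ.erase v) y = α (t w) (ψ (σ.erase w) (y - un w))
          rw [((h v hv).2 w hw' y (box_erase hy hyv')).2 hyw',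
            ((h w hw).2 v hv' (y - un w) (box_sub hy hyw')).1 (by rw [e2]; exact hyv'), e3]
        · have hyv' : y v = 1 := hyv
          have hyw' : y w = 0 := hyw
          show α (t v) (ψ (σ.erase v) (y - un v)) = ψ (σ.erase w) y
          rw [((h w hw).2 v hv' y (box_erase hy hyw')).2 hyv',
            ((h v hv).2 w hw' (y - un v) (box_sub hy hyv')).1 (by rw [e1]; exact hyw'), e3]
        · have hyv' : y v = 1 := hyv
          have hyw' : y w = 1 := hyw
          show α (t v) (ψ (σ.erase v) (y - un v)) = α (t w) (ψ (σ.erase w) (y - un w))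
          rw [((h v hv).2 w hw' (y - un v) (box_sub hy hyv')).2 (by rw [e1]; exact hyw'),
            ((h w hw).2 v hv' (y - un w) (box_sub hy hyw')).2 (by rw [e2]; exact hyv'), e3, sub_right_comm,
            ← Equiv.Perm.mul_apply, ← Equiv.Perm.mul_apply, ← map_mul, ← map_mul,
            hcomm v w (hσ hv hw hvw)]
  rw [hF, hf] at hg'
  refine ⟨g, hg, fun v hv y hy => ⟨fun h0 => ?_, fun h1 => ?_⟩⟩
  · exact hg' (⟨v, hv⟩, false) y ⟨hy, h0⟩
  · exact hg' (⟨v, hv⟩, true) y ⟨hy, h1⟩

/-- the maps on all the cubes -/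
theorem exists_cubes (hα : ∀ g, Continuous (α g)) (x0 : X) {N : SimpleGraph V}
    (hcomm : ∀ u w, N.Adj u w → t u * t w = t w * t u) :
    ∃ ψ : Finset V → (V → ℝ) → X, ∀ σ : Finset V, N.IsClique (σ : Set V) → Fc α t ψ σ := by
  classical
  have key : ∀ m : ℕ, ∃ ψ : Finset V → (V → ℝ) → X, ∀ σ : Finset V, N.IsClique (σ : Set V) → σ.card ≤ m →
      Fc α t ψ σ := by
    intro m
    induction m with
    | zero =>
      refine ⟨fun _ _ => x0, fun σ _ h => ⟨continuous_const, fun v hv => ?_⟩⟩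
      rw [Nat.le_zero, card_eq_zero] at h
      rw [h] at hv
      exact absurd hv (notMem_empty v)
    | succ m ih =>
      obtain ⟨ψ, hψ⟩ := ih
      have h1 : ∀ σ : Finset V, ∃ g : (V → ℝ) → X, (N.IsClique (σ : Set V) ∧ σ.card = m + 1) →
          Continuous g ∧ ∀ v ∈ σ, ∀ y ∈ box σ, (y v = 0 → g y = ψ (σ.erase v) y) ∧
          (y v = 1 → g y = α (t v) (ψ (σ.erase v) (y - un v))) := by
        intro σ
        by_cases h : N.IsClique (σ : Set V) ∧ σ.card = m + 1
        · obtain ⟨g, hg⟩ := extend_cube hα x0 hcomm h.1 ψ fun v hv =>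
            hψ _ (h.1.subset (by simp)) (by rw [card_erase_of_mem hv, h.2]; rfl)
          exact ⟨g, fun _ => hg⟩
        · exact ⟨fun _ => x0, fun h' => absurd h' h⟩
      choose g hg using h1
      refine ⟨fun σ => if σ.card = m + 1 then g σ else ψ σ, fun σ hσ hc => ?_⟩
      by_cases h2 : σ.card = m + 1
      · obtain ⟨h3, h4⟩ := hg σ ⟨hσ, h2⟩
        refine ⟨?_, fun v hv y hy => ?_⟩
        · dsimp only
          rw [if_pos h2]; exact h3
        · have h5 : (σ.erase v).card ≠ m + 1 := by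
            rw [card_erase_of_mem hv, h2]; simp
          dsimp only
          rw [if_pos h2, if_neg h5]
          exact h4 v hv y hy
      · obtain ⟨h3, h4⟩ := hψ σ hσ (by omega)
        refine ⟨?_, fun v hv y hy => ?_⟩
        · dsimp only
          rw [if_neg h2]; exact h3
        · have h5 : (σ.erase v).card ≠ m + 1 := by
            rw [card_erase_of_mem hv]
            omega
          dsimp only
          rw [if_neg h2, if_neg h5]
          exact h4 v hv y hy
  obtain ⟨ψ, hψ⟩ := key (Fintype.card V)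
  exact ⟨ψ, fun σ hσ => hψ σ hσ (card_le_univ σ)⟩

end

end Pool.Agent.V5helper75.BK
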