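import Pool.Agent.V5helper75.BK.Cube

/-!
# Project BK: the map on the cone
-/

set_option autoImplicit false
set_option linter.unusedSectionVars false

namespace Pool.Agent.V5helper75.BK

open Finset

section

variable {V Γ : Type} [DecidableEq V] [Group Γ] {t : V → Γ}

/-- the product over a list -/
def pwl (t : V → Γ) (n : V → ℕ) : List V → Γ
  | [] => 1
  | v :: l => t v ^ n v * pwl t n l

theorem pwl_congr {n m : V → ℕ} : ∀ {l : List V}, (∀ v ∈ l, n v = m v) → pwl t n l = pwl t m l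
  | [], _ => rfl
  | v :: l, h => by
    rw [pwl, pwl, h v (by simp), pwl_congr (fun w hw => h w (by simp [hw]))]

/-- adding one -/
def ad (n : V → ℕ) (u : V) : V → ℕ := fun w => if w = u then n w + 1 else n w

theorem pwl_ad {n : V → ℕ} {u : V} (h : ∀ w, n w ≠ 0 → t u * t w = t w * t u) :
    ∀ {l : List V}, l.Nodup → u ∈ l → pwl t (ad n u) l = pwl t n l * t u ∧ t u * pwl t n l = pwl t n l * t u := by
  have h0 : ∀ w, t u * t w ^ n w = t w ^ n w * t u := by
    intro w
    by_cases h1 : n w = 0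
    · rw [h1, pow_zero, mul_one, one_mul]
    · exact (Commute.pow_right (h w h1) (n w) : Commute (t u) (t w ^ n w))
  have h1 : ∀ l : List V, t u * pwl t n l = pwl t n l * t u := by
    intro l
    induction l with
    | nil => rw [pwl, mul_one, one_mul]
    | cons v l ih => rw [pwl, ← mul_assoc, h0, mul_assoc, ih, mul_assoc]
  intro l
  induction l with
  | nil => intro _ hu; exact absurd hu (by simp)
  | cons v l ih =>
    intro hnd hu
    refine ⟨?_, h1 _⟩
    rw [List.nodup_cons] at hnd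
    by_cases hvu : v = u
    · subst hvu
      have h2 : pwl t (ad n v) l = pwl t n l := pwl_congr fun w hw => by
        have : w ≠ v := fun e => hnd.1 (e ▸ hw)
        rw [ad, if_neg this]
      rw [pwl, pwl, h2, ad, if_pos rfl, pow_succ, mul_assoc, mul_assoc, h1 l]
    · rw [List.mem_cons] at hu
      have h3 : u ∈ l := hu.resolve_left (Ne.symm hvu)
      rw [pwl, pwl, (ih hnd.2 h3).1, ad, if_neg hvu, mul_assoc]

variable [Fintype V]

/-- the product `∏ t v ^ n v` -/
noncomputable def pw (t : V → Γ) (n : V → ℕ) : Γ := pwl t n univ.toList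

theorem pw_ad {n : V → ℕ} {u : V} (h : ∀ w, n w ≠ 0 → t u * t w = t w * t u) :
    pw t (ad n u) = pw t n * t u :=
  (pwl_ad h (nodup_toList _) (mem_toList.2 (mem_univ u))).1

end

section

variable {V : Type} [Fintype V] [DecidableEq V] {Γ X : Type} [Group Γ] [TopologicalSpace X]
  {α : Γ →* Equiv.Perm X} {t : V → Γ} {ψ : Finset V → (V → ℝ) → X} {N : SimpleGraph V}

/-- the support -/
noncomputable def sp (y : V → ℝ) : Finset V := univ.filter fun v => y v ≠ 0

theorem mem_sp {y : V → ℝ} {v : V} : v ∈ sp y ↔ y v ≠ 0 := by simp [sp]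

theorem psi_eq (hψ : ∀ σ : Finset V, N.IsClique (σ : Set V) → Fc α t ψ σ) {σ : Finset V}
    (hσ : N.IsClique (σ : Set V)) {y : V → ℝ} (hy : y ∈ box σ) : ψ σ y = ψ (sp y) y := by
  obtain ⟨k, hk⟩ : ∃ k, k = σ.card := ⟨_, rfl⟩
  induction k generalizing σ with
  | zero =>
    have h1 : σ = ∅ := card_eq_zero.1 hk.symm
    have h2 : sp y = ∅ := by
      ext v
      rw [mem_sp]
      simp only [ne_eq, notMem_empty, iff_false, not_not]
      exact hy.2 v (by rw [h1]; exact notMem_empty v)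
    rw [h1, h2]
  | succ k ih =>
    by_cases h : σ = sp y
    · rw [← h]
    · have h1 : sp y ⊆ σ := by
        intro v hv
        by_contra h2
        exact (mem_sp.1 hv) (hy.2 v h2)
      obtain ⟨v, hv, hv'⟩ : ∃ v ∈ σ, v ∉ sp y := by
        by_contra h3
        push Not at h3
        exact h (Subset.antisymm (fun v hv => h3 v hv) h1)
      have h4 : y v = 0 := by
        by_contra h5
        exact hv' (mem_sp.2 h5)
      rw [((hψ σ hσ).2 v hv y hy).1 h4]
      exact ih (hσ.subset (by simp)) (box_erase hy h4) (by rw [card_erase_of_mem hv, ← hk]; rfl)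

theorem psi_one (hψ : ∀ σ : Finset V, N.IsClique (σ : Set V) → Fc α t ψ σ) {σ : Finset V}
    (hσ : N.IsClique (σ : Set V)) {y : V → ℝ} (hy : y ∈ box σ) {v : V} (hv : y v = 1) :
    ψ (sp y) y = α (t v) (ψ (sp (y - un v)) (y - un v)) := by
  have h1 : v ∈ σ := by
    by_contra h2
    have h3 := hy.2 v h2
    rw [h3] at hv
    exact zero_ne_one hv
  rw [← psi_eq hψ hσ hy, ((hψ σ hσ).2 v h1 y hy).2 hv, psi_eq hψ (hσ.subset (by simp)) (box_sub hy hv)]

/-- the closed piece of the cone -/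
def pc (σ : Finset V) (n : V → ℕ) : Set (V → ℝ) :=
  {x | (∀ v, (n v : ℝ) ≤ x v ∧ x v ≤ n v + 1) ∧ ∀ v, v ∉ σ → x v = 0}

theorem pc_closed (σ : Finset V) (n : V → ℕ) : IsClosed (pc σ n) := by
  have h1 : pc σ n = (⋂ v, {x : V → ℝ | (n v : ℝ) ≤ x v ∧ x v ≤ n v + 1}) ∩
      ⋂ v, ⋂ (_ : v ∉ σ), {x : V → ℝ | x v = 0} := by
    ext y
    simp only [pc, Set.mem_ofPred_eq, Set.mem_inter_iff, Set.mem_iInter]
  rw [h1]
  refine (isClosed_iInter fun v => ?_).inter (isClosed_iInter fun v => isClosed_iInter fun _ => ?_)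
  · exact (isClosed_le continuous_const (continuous_apply v)).inter (isClosed_le (continuous_apply v) continuous_const)
  · exact isClosed_eq (continuous_apply v) continuous_const

/-- the difference -/
def df (x : V → ℝ) (n : V → ℕ) : V → ℝ := fun v => x v - n v

theorem df_box {σ : Finset V} {n : V → ℕ} {x : V → ℝ} (hx : x ∈ pc σ n) : df x n ∈ box σ := by
  refine ⟨fun v => ?_, fun v hv => ?_⟩
  · have := hx.1 v
    simp only [df]
    constructor <;> linarith
  · have h1 := hx.1 v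
    have h2 := hx.2 v hv
    rw [h2] at h1
    have h3 : (n v : ℝ) = 0 := le_antisymm h1.1 (Nat.cast_nonneg _)
    simp only [df, h2, h3, sub_zero]

theorem pc_supp {σ : Finset V} {n : V → ℕ} {x : V → ℝ} (hx : x ∈ pc σ n) {v : V} (hv : n v ≠ 0) : v ∈ σ := by
  by_contra h
  have h1 := hx.1 v
  have h2 := hx.2 v h
  rw [h2] at h1
  have h3 : (n v : ℝ) = 0 := le_antisymm h1.1 (Nat.cast_nonneg _)
  exact hv (by exact_mod_cast h3)

/-- the value -/
noncomputable def vl (α : Γ →* Equiv.Perm X) (t : V → Γ) (ψ : Finset V → (V → ℝ) → X) (x : V → ℝ) (n : V → ℕ) : X :=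
  α (pw t n) (ψ (sp (df x n)) (df x n))

theorem vl_ad (hψ : ∀ σ : Finset V, N.IsClique (σ : Set V) → Fc α t ψ σ)
    (hcomm : ∀ u w, N.Adj u w → t u * t w = t w * t u) {σ : Finset V} (hσ : N.IsClique (σ : Set V))
    {n : V → ℕ} {x : V → ℝ} (hx : x ∈ pc σ n) {u : V} (hu : x u = n u + 1) :
    vl α t ψ x n = vl α t ψ x (ad n u) ∧ x ∈ pc σ (ad n u) := by
  have h1 : df x n u = 1 := by simp only [df, hu]; ring
  have h2 : df x n - un u = df x (ad n u) := by
    funext w
    rw [Pi.sub_apply]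
    simp only [df, ad]
    by_cases hw : w = u
    · rw [hw, un_same, if_pos rfl]; push_cast; ring
    · rw [un_ne hw, if_neg hw]; ring
  have hu' : u ∈ σ := by
    by_contra h
    have h3 := (df_box hx).2 u h
    rw [h3] at h1
    exact zero_ne_one h1
  refine ⟨?_, ?_, hx.2⟩
  · rw [vl, psi_one hψ hσ (df_box hx) h1, h2, vl, pw_ad, map_mul, Equiv.Perm.mul_apply]
    intro w hw
    by_cases hwu : w = u
    · rw [hwu]
    · exact hcomm u w (hσ hu' (pc_supp hx hw) (Ne.symm hwu))
  · intro v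
    simp only [ad]
    by_cases hv : v = u
    · rw [hv, if_pos rfl, hu]
      push_cast
      constructor <;> linarith
    · rw [if_neg hv]; exact hx.1 v

/-- the value does not depend on the piece -/
theorem vl_eq (hψ : ∀ σ : Finset V, N.IsClique (σ : Set V) → Fc α t ψ σ)
    (hcomm : ∀ u w, N.Adj u w → t u * t w = t w * t u) {σ : Finset V} (hσ : N.IsClique (σ : Set V))
    {n : V → ℕ} {x : V → ℝ} (hx : x ∈ pc σ n) : vl α t ψ x n = vl α t ψ x (fun v => ⌊x v⌋₊) := by
  obtain ⟨k, hk⟩ : ∃ k, k = (univ.filter fun v => x v = n v + 1).card := ⟨_, rfl⟩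
  induction k generalizing n with
  | zero =>
    have h1 := card_eq_zero.1 hk.symm
    congr 1
    funext v
    symm
    rw [Nat.floor_eq_iff (le_trans (Nat.cast_nonneg _) (hx.1 v).1)]
    refine ⟨(hx.1 v).1, lt_of_le_of_ne (hx.1 v).2 fun h2 => ?_⟩
    have h3 : v ∈ univ.filter fun v => x v = n v + 1 := mem_filter.2 ⟨mem_univ v, h2⟩
    rw [h1] at h3
    exact notMem_empty v h3
  | succ k ih =>
    obtain ⟨u, hu⟩ : (univ.filter fun v => x v = n v + 1).Nonempty := by
      rw [← card_pos, ← hk]; omega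
    obtain ⟨h1, h2⟩ := vl_ad hψ hcomm hσ hx (mem_filter.1 hu).2
    rw [h1]
    refine ih h2 ?_
    have h3 : (univ.filter fun v => x v = (ad n u v : ℕ) + 1) = (univ.filter fun v => x v = n v + 1).erase u := by
      ext v
      rw [mem_filter, mem_erase, mem_filter]
      by_cases hv : v = u
      · have h4 : ad n u v = n u + 1 := by rw [ad, if_pos hv, hv]
        rw [h4, hv, (mem_filter.1 hu).2]
        push_cast
        constructor
        · rintro ⟨_, h⟩; linarith
        · intro h; exact absurd rfl h.1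
      · have h4 : ad n u v = n v := by rw [ad, if_neg hv]
        rw [h4]
        exact ⟨fun h => ⟨hv, h⟩, fun h => h.2⟩
    rw [h3, card_erase_of_mem hu, ← hk]
    rfl

variable [TietzeExtension.{0} X]

/-- **the map on the cone** -/
theorem exists_map (hα : ∀ g, Continuous (α g)) (x0 : X)
    (hcomm : ∀ u w, N.Adj u w → t u * t w = t w * t u) :
    ∃ Q : Set X, IsCompact Q ∧ ∀ R : ℕ, ∃ φ : (V → ℝ) → X, Continuous φ ∧ ∀ x : V → ℝ,
      (∀ v, 0 ≤ x v ∧ x v ≤ R) → N.IsClique {v | x v ≠ 0} → ∃ q ∈ Q, φ x = α (pw t fun v => ⌊x v⌋₊) q := by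
  classical
  obtain ⟨ψ, hψ⟩ := exists_cubes (t := t) hα x0 hcomm
  refine ⟨⋃ σ : {σ : Finset V // N.IsClique (σ : Set V)}, ψ σ '' box σ.1, ?_, fun R => ?_⟩
  · exact isCompact_iUnion fun σ => (box_compact σ.1).image (hψ σ.1 σ.2).1
  · obtain ⟨φ, hφ, hφ'⟩ : ∃ φ : (V → ℝ) → X, Continuous φ ∧
        ∀ i : {σ : Finset V // N.IsClique (σ : Set V)} × (V → Fin (R + 1)),
        ∀ x ∈ pc i.1.1 (fun v => (i.2 v : ℕ)), φ x = α (pw t fun v => (i.2 v : ℕ)) (ψ i.1.1 (df x fun v => (i.2 v : ℕ))) := by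
      refine glue_ext x0 (fun i : {σ : Finset V // N.IsClique (σ : Set V)} × (V → Fin (R + 1)) =>
        pc i.1.1 (fun v => (i.2 v : ℕ))) (fun i => pc_closed _ _)
        (fun i x => α (pw t fun v => (i.2 v : ℕ)) (ψ i.1.1 (df x fun v => (i.2 v : ℕ)))) ?_ ?_
      · rintro ⟨σ, n⟩
        refine Continuous.continuousOn ((hα _).comp ((hψ σ.1 σ.2).1.comp ?_))
        exact continuous_pi fun v => (continuous_apply v).sub continuous_const
      · rintro ⟨σ, n⟩ ⟨τ, m⟩ x hx hy
        dsimp only at hx hy ⊢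
        have h1 := vl_eq hψ hcomm σ.2 hx
        have h2 := vl_eq hψ hcomm τ.2 hy
        rw [vl] at h1 h2
        rw [psi_eq hψ σ.2 (df_box hx), h1, psi_eq hψ τ.2 (df_box hy), h2]
    refine ⟨φ, hφ, fun x hx hc => ?_⟩
    have hσ : N.IsClique ((sp x : Finset V) : Set V) := by
      intro a ha b hb hab
      exact hc (mem_sp.1 ha) (mem_sp.1 hb) hab
    have hlt : ∀ v, ⌊x v⌋₊ < R + 1 := by
      intro v
      rw [Nat.lt_succ_iff]
      exact Nat.floor_le_of_le (hx v).2
    have hpc : x ∈ pc (sp x) (fun v => ⌊x v⌋₊) := by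
      refine ⟨fun v => ⟨Nat.floor_le (hx v).1, (Nat.lt_floor_add_one _).le⟩, fun v hv => ?_⟩
      by_contra h
      exact hv (mem_sp.2 h)
    have h1 := hφ' (⟨sp x, hσ⟩, fun v => ⟨⌊x v⌋₊, hlt v⟩) x hpc
    refine ⟨ψ (sp x) (df x fun v => ⌊x v⌋₊), ?_, h1⟩
    rw [Set.mem_iUnion]
    exact ⟨⟨sp x, hσ⟩, _, df_box hpc, rfl⟩

end

end Pool.Agent.V5helper75.BK
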