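import Pool.Agent.V5helper75.BK.Clo

/-!
# Project BK: substitution
-/

set_option autoImplicit false
set_option linter.unusedSectionVars false

namespace Pool.Agent.V5helper75.BK

open Finset Pool.Agent.W907.SG Pool.Agent.W907.SM Pool.Agent.R782.Bal Pool.Agent.V5helper75.VO
open Pool.Agent.TH652.Join (join ljoin)

section

variable {V : Type} {U : V → Type} {a b : ∀ v, U v} {G : SimpleGraph V} {H : ∀ v, SimpleGraph (U v)}

theorem geo_SS_empty [Finite V] [∀ v, Finite (U v)] (hab : ∀ v, a v ≠ b v) (hna : ∀ v, ¬ (H v).Adj (a v) (b v))
    (T : Set V) : Geo ((sbt G H).induce (SS a b ∅ T)) := by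
  classical
  have : Fintype T := Fintype.ofFinite T
  obtain ⟨oV⟩ : Nonempty (LinearOrder T) :=
    ⟨LinearOrder.lift' (Fintype.equivFin T) (Fintype.equivFin T).injective⟩
  refine geo_iso ⟨?_⟩ (geo_oct (G.induce T))
  let f : T ×ₗ Bool → SS a b ∅ T := fun p =>
    ⟨⟨(ofLex p).1.1, if (ofLex p).2 = true then a _ else b _⟩, (ofLex p).1.2, by
      right
      by_cases h : (ofLex p).2 = true
      · left; exact if_pos h
      · right; exact if_neg h⟩
  have hf : Function.Bijective f := by
    constructor
    · intro p q hpq
      obtain ⟨⟨v, ε⟩, rfl⟩ := toLex.surjective p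
      obtain ⟨⟨w, δ⟩, rfl⟩ := toLex.surjective q
      have h1 := congrArg Subtype.val hpq
      have h2 : v = w := Subtype.ext (congrArg Sigma.fst h1)
      subst h2
      have h3 : (if ε = true then a v else b v) = if δ = true then a v else b v :=
        eq_of_heq (Sigma.mk.inj h1).2
      have h4 : ε = δ := by
        cases ε <;> cases δ
        · rfl
        · exact absurd h3.symm (hab _)
        · exact absurd h3 (hab _)
        · rfl
      rw [h4]
    · rintro ⟨⟨v, u⟩, hv, h⟩
      rcases h with h | h | h
      · exact absurd h (Set.notMem_empty _)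
      · refine ⟨toLex (⟨v, hv⟩, true), Subtype.ext ?_⟩
        dsimp only at h
        subst h
        rfl
      · refine ⟨toLex (⟨v, hv⟩, false), Subtype.ext ?_⟩
        dsimp only at h
        subst h
        rfl
  refine { toEquiv := Equiv.ofBijective f hf, map_rel_iff' := ?_ }
  intro p q
  obtain ⟨⟨v, ε⟩, rfl⟩ := toLex.surjective p
  obtain ⟨⟨w, δ⟩, rfl⟩ := toLex.surjective q
  show (sbt G H).Adj ⟨v.1, if ε = true then a v else b v⟩ ⟨w.1, if δ = true then a w else b w⟩ ↔ G.Adj v.1 w.1
  by_cases hvw : v = w
  · subst hvw
    rw [sbt_same]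
    refine iff_of_false ?_ (G.loopless.irrefl _)
    cases ε <;> cases δ
    · exact (H v.1).loopless.irrefl _
    · exact fun h => hna _ h.symm
    · exact hna _
    · exact (H v.1).loopless.irrefl _
  · exact sbt_ne (fun h => hvw (Subtype.ext h)) _ _

theorem geo_SS [Finite V] [∀ v, Finite (U v)] (hab : ∀ v, a v ≠ b v) (hna : ∀ v, ¬ (H v).Adj (a v) (b v))
    (hD : ∀ v, Geo (H v)) (S : Finset V) : ∀ T : Set V, Geo ((sbt G H).induce (SS a b S T)) := by
  classical
  induction S using Finset.induction_on with
  | empty =>
    intro T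
    rw [coe_empty]
    exact geo_SS_empty hab hna T
  | insert v S hv ih =>
    intro T
    by_cases hvT : v ∈ T
    · -- the two pieces
      obtain ⟨A, hA⟩ : ∃ A, A = SS a b (S : Set V) T := ⟨_, rfl⟩
      obtain ⟨B, hB⟩ : ∃ B, B = {p : Σ v, U v | p.1 = v} ∪ SS a b (S : Set V) (T ∩ G.neighborSet v) := ⟨_, rfl⟩
      have e1 : SS a b ((insert v S : Finset V) : Set V) T = A ∪ B := by
        rw [hA, hB]
        ext p
        constructor
        · rintro ⟨h1, h2⟩
          by_cases h3 : p.1 = v
          · exact Or.inr (Or.inl h3)
          · refine Or.inl ⟨h1, ?_⟩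
            rcases h2 with h2 | h2
            · rw [coe_insert] at h2
              exact Or.inl (h2.resolve_left h3)
            · exact Or.inr h2
        · rintro (⟨h1, h2⟩ | h1 | ⟨h1, h2⟩)
          · refine ⟨h1, h2.imp_left fun h => ?_⟩
            rw [coe_insert]
            exact Or.inr h
          · have h1' : p.1 = v := h1
            refine ⟨by rw [h1']; exact hvT, Or.inl ?_⟩
            rw [coe_insert]
            exact Or.inl h1'
          · refine ⟨h1.1, h2.imp_left fun h => ?_⟩
            rw [coe_insert]
            exact Or.inr h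
      rw [e1]
      refine geo_glue _ A B ?_ ?_ ?_ ?_
      · rintro ⟨w, c⟩ h1 h2 ⟨w', c'⟩ h3 h4 h5
        rw [hB] at h3 h2
        have h6 : w' = v := by
          rcases h3 with h3 | h3
          · exact h3
          · exfalso
            apply h4
            rw [hA]
            exact ⟨h3.1.1, h3.2⟩
        subst h6
        have h7 : w ≠ w' := fun h => h2 (Or.inl h)
        rw [sbt_ne h7] at h5
        rw [hA] at h1
        exact h2 (Or.inr ⟨⟨h1.1, h5.symm⟩, h1.2⟩)
      · rw [hA]; exact ih T
      · -- the join
        have h1 := ih (T ∩ G.neighborSet v)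
        refine geo_iso ⟨?_⟩ (geo_join (hD v) h1)
        let f : U v ⊕ SS a b (S : Set V) (T ∩ G.neighborSet v) → B := fun x => match x with
          | Sum.inl u => ⟨⟨v, u⟩, by rw [hB]; exact Or.inl rfl⟩
          | Sum.inr p => ⟨p.1, by rw [hB]; exact Or.inr p.2⟩
        have hne : ∀ p : SS a b (S : Set V) (T ∩ G.neighborSet v), v ≠ p.1.1 := fun p => G.ne_of_adj p.2.1.2
        have hf : Function.Bijective f := by
          constructor
          · rintro (x | x) (y | y) hxy
            · have h2 := congrArg Subtype.val hxy
              exact congrArg _ (eq_of_heq (Sigma.mk.inj h2).2)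
            · have h2 := congrArg Subtype.val hxy
              exact absurd (congrArg Sigma.fst h2) (hne y)
            · have h2 := congrArg Subtype.val hxy
              exact absurd (congrArg Sigma.fst h2).symm (hne x)
            · have h2 := congrArg Subtype.val hxy
              exact congrArg _ (Subtype.ext h2)
          · rintro ⟨p, hp⟩
            have hp' := hp
            rw [hB] at hp'
            rcases hp' with h2 | h2
            · obtain ⟨w, u⟩ := p
              have h3 : w = v := h2
              subst h3
              exact ⟨Sum.inl u, rfl⟩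
            · exact ⟨Sum.inr ⟨p, h2⟩, rfl⟩
        refine { toEquiv := Equiv.ofBijective f hf, map_rel_iff' := ?_ }
        rintro (x | x) (y | y)
        · exact sbt_same x y
        · refine iff_of_true ?_ trivial
          exact (sbt_ne (hne y) _ _).2 y.2.1.2
        · refine iff_of_true ?_ trivial
          exact (sbt_ne (hne x).symm _ _).2 (show G.Adj v x.1.1 from x.2.1.2).symm
        · exact Iff.rfl
      · -- the intersection
        intro j
        have hva : (⟨v, a v⟩ : Σ v, U v) ∈ A ∩ B := by
          rw [hA, hB]
          exact ⟨⟨hvT, Or.inr (Or.inl rfl)⟩, Or.inl rfl⟩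
        have hvb : (⟨v, b v⟩ : Σ v, U v) ∈ A ∩ B := by
          rw [hA, hB]
          exact ⟨⟨hvT, Or.inr (Or.inr rfl)⟩, Or.inl rfl⟩
        refine lsusp _ _ ⟨⟨v, a v⟩, hva⟩ ⟨⟨v, b v⟩, hvb⟩ j ?_ ?_ ?_
        · intro h
          have h2 := congrArg Subtype.val h
          exact hab v (eq_of_heq (Sigma.mk.inj h2).2)
        · intro h
          exact hna v ((sbt_same _ _).1 h)
        · rintro ⟨⟨w, c⟩, hw⟩ h1 h2
          have hw1 := hw.1
          have hw2 := hw.2
          rw [hA] at hw1
          rw [hB] at hw2
          rcases hw2 with h3 | h3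
          · exfalso
            have h3' : w = v := h3
            subst h3'
            rcases hw1.2 with h4 | h4 | h4
            · exact hv h4
            · apply h1
              apply Subtype.ext
              dsimp only at h4 ⊢
              rw [h4]
            · apply h2
              apply Subtype.ext
              dsimp only at h4 ⊢
              rw [h4]
          · have h5 : G.Adj v w := h3.1.2
            have h6 : w ≠ v := (G.ne_of_adj h5).symm
            exact ⟨(sbt_ne h6 _ _).2 h5.symm, (sbt_ne h6 _ _).2 h5.symm⟩
    · have e1 : SS a b ((insert v S : Finset V) : Set V) T = SS a b (S : Set V) T := by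
        ext p
        constructor
        · rintro ⟨h1, h2⟩
          refine ⟨h1, h2.imp_left fun h => ?_⟩
          rw [coe_insert] at h
          rcases h with h | h
          · exact absurd (h ▸ h1) hvT
          · exact h
        · rintro ⟨h1, h2⟩
          refine ⟨h1, h2.imp_left fun h => ?_⟩
          rw [coe_insert]
          exact Or.inr h
      rw [e1]
      exact ih T

/-- **Substitution.** -/
theorem geo_sbt [Finite V] [∀ v, Finite (U v)] (G : SimpleGraph V) (H : ∀ v, SimpleGraph (U v))
    (hn : ∀ v, H v ≠ ⊤) (hD : ∀ v, Geo (H v)) : Geo (sbt G H) := by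
  classical
  have h1 : ∀ v, ∃ x y : U v, x ≠ y ∧ ¬ (H v).Adj x y := by
    intro v
    by_contra h
    push Not at h
    refine hn v ?_
    ext x y
    rw [SimpleGraph.top_adj]
    exact ⟨fun h3 => (H v).ne_of_adj h3, h x y⟩
  choose a b hab hna using h1
  have : Fintype V := Fintype.ofFinite V
  have h2 := geo_SS (G := G) (H := H) hab hna hD univ Set.univ
  refine geo_iso ⟨?_⟩ h2
  have e1 : SS a b ((univ : Finset V) : Set V) Set.univ = Set.univ := by
    ext p
    refine iff_of_true ⟨trivial, Or.inl ?_⟩ trivial
    rw [coe_univ]; trivial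
  rw [e1]
  exact SimpleGraph.induceUnivIso _

end

end Pool.Agent.V5helper75.BK
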