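import Pool.Agent.V5helper75.BK.Act
import Pool.Agent.V5helper75.VO.Three

/-!
# Project BK: degree one
-/

set_option autoImplicit false
set_option linter.unusedSectionVars false

namespace Pool.Agent.V5helper75.BK

open Finset Pool.Agent.W907.SG Pool.Agent.W907.SM Pool.Agent.R782.Bal Pool.Agent.V5helper75.VO
open Pool.Agent.TH652.Join (join ljoin)
open Pool.Agent.TH652.Above (lv_set lv_univ lv_cone)

/-- complete graphs -/
theorem lv_complete {V : Type} [Finite V] {K : SimpleGraph V} (h : ∀ a b, a ≠ b → K.Adj a b) (i : ℕ) (hi : 1 ≤ i) :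
    LV K i := by
  classical
  have : Fintype V := Fintype.ofFinite V
  rw [← lv_univ]
  have key : ∀ S : Finset V, LV (K.induce (S : Set V)) i := by
    intro S
    induction S using Finset.induction_on with
    | empty =>
      have : IsEmpty ((∅ : Finset V) : Set V) := ⟨fun x => absurd x.2 (by simp)⟩
      exact lempty _ _ i hi
    | insert v S hv ih =>
      rw [coe_insert]
      refine lv_cone K _ v (by simpa using hv) (fun a ha => h v a ?_) i ih
      rintro rfl
      exact hv ha
  have h1 := key univ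
  rw [coe_univ] at h1
  exact h1

/-- if the first `ℓ²`-Betti number does not vanish then there are three vertices with at most one edge -/
theorem exists_three {V : Type} [Finite V] {K : SimpleGraph V} (h : ¬ LV K 1) :
    ∃ a b c : V, a ≠ b ∧ c ≠ b ∧ a ≠ c ∧ ¬ K.Adj a b ∧ ¬ K.Adj c b := by
  by_contra h1
  push Not at h1
  apply h
  by_cases h2 : ∀ a b, a ≠ b → K.Adj a b
  · exact lv_complete h2 1 le_rfl
  · push Not at h2
    obtain ⟨s, t, hst, hns⟩ := h2
    refine lsusp _ K s t 1 hst hns fun u hus hut => ⟨?_, ?_⟩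
    · by_contra h3
      exact hns (h1 u s t hus hst.symm hut h3).symm
    · by_contra h3
      exact hns (h1 u t s hut hst hus h3)

/-- a free product of a group of order two with a dihedral group contains a detecting tripod -/
theorem fl_three {V : Type} {K : SimpleGraph V} {a b c : V} (hab : a ≠ b) (hcb : c ≠ b) (hac : a ≠ c)
    (nab : ¬ K.Adj a b) (ncb : ¬ K.Adj c b) : Fl (W K) 1 := by
  classical
  -- homomorphisms to the permutations of the integers
  have key : ∀ x y z : Equiv.Perm ℤ, x * x = 1 → y * y = 1 → z * z = 1 → x * z = z * x →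
      ∃ ρ : W K →* Equiv.Perm ℤ, ρ (gen K a) = x ∧ ρ (gen K b) = y ∧ ρ (gen K c) = z := by
    intro x y z hx hy hz hxz
    obtain ⟨f, f1, f2, f3, f4⟩ : ∃ f : V → Equiv.Perm ℤ, f a = x ∧ f b = y ∧ f c = z ∧
        ∀ v, v ≠ a → v ≠ b → v ≠ c → f v = 1 := by
      refine ⟨fun v => if v = a then x else if v = b then y else if v = c then z else 1, ?_, ?_, ?_, ?_⟩
      · simp
      · simp [Ne.symm hab]
      · simp [Ne.symm hac, hcb]
      · intro v h1 h2 h3
        simp [h1, h2, h3]
    have hcase : ∀ v, v = a ∨ v = b ∨ v = c ∨ f v = 1 := by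
      intro v
      by_cases h1 : v = a
      · exact Or.inl h1
      · by_cases h2 : v = b
        · exact Or.inr (Or.inl h2)
        · by_cases h3 : v = c
          · exact Or.inr (Or.inr (Or.inl h3))
          · exact Or.inr (Or.inr (Or.inr (f4 v h1 h2 h3)))
    obtain ⟨ρ, hρ⟩ := exists_hom (K := K) f (fun v => by
      rcases hcase v with rfl | rfl | rfl | h
      · rw [f1, hx]
      · rw [f2, hy]
      · rw [f3, hz]
      · rw [h, one_mul]) (fun u v huv => by
      rcases hcase u with rfl | rfl | rfl | h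
      · rcases hcase v with rfl | rfl | rfl | h
        · rfl
        · exact absurd huv nab
        · rw [f1, f3, hxz]
        · rw [h, one_mul, mul_one]
      · rcases hcase v with rfl | rfl | rfl | h
        · exact absurd huv.symm nab
        · rfl
        · exact absurd huv.symm ncb
        · rw [h, one_mul, mul_one]
      · rcases hcase v with rfl | rfl | rfl | h
        · rw [f1, f3, hxz]
        · exact absurd huv ncb
        · rfl
        · rw [h, one_mul, mul_one]
      · rw [h, one_mul, mul_one])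
    exact ⟨ρ, by rw [hρ, f1], by rw [hρ, f2], by rw [hρ, f3]⟩
  obtain ⟨t, ht0, ht1, ht2⟩ : ∃ t : Fin 3 → W K, t 0 = gen K a * gen K b * (gen K a * gen K b) ∧
      t 1 = gen K c * gen K b * (gen K c * gen K b) ∧ t 2 = gen K b * gen K a * (gen K b * gen K a) :=
    ⟨![_, _, _], rfl, rfl, rfl⟩
  have e2 : ra * rb * (ra * rb) = tr 2 := by rw [ra_rb, tr_mul]; rfl
  have e3 : rb * ra * (rb * ra) = tr (-2) := by rw [rb_ra, tr_mul]; rfl
  refine ⟨Fin 3, inferInstance, ⊥, t, not_obs_three, fun u w huw => absurd huw (by simp), ?_⟩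
  intro U U' hU _ hd u hu
  -- it is enough to find an action with the right signs
  have red : (∃ (ρ : W K →* Equiv.Perm ℤ) (ε : Fin 3 → ℤ), (∀ w, ρ (t w) = tr (ε w)) ∧ 1 ≤ ε u ∧
      ∀ w, w ≠ u → ε w ≤ 0) → ∃ (ρ : W K →* Equiv.Perm ℤ) (ε : Fin 3 → ℤ),
      (∀ w, w ∈ U ∨ w ∈ U' → ρ (t w) = tr (ε w)) ∧ 1 ≤ ε u ∧ (∀ w ∈ U, 0 ≤ ε w) ∧ ∀ w ∈ U', ε w ≤ 0 := by
    rintro ⟨ρ, ε, h1, h2, h3⟩
    refine ⟨ρ, ε, fun w _ => h1 w, h2, fun w hw => ?_, fun w hw => h3 w ?_⟩
    · by_cases hwu : w = u
      · rw [hwu]; exact zero_le_one.trans h2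
      · exact absurd (hU (mem_coe.2 hw) (mem_coe.2 hu) hwu) (by simp)
    · rintro rfl
      exact disjoint_left.1 hd hu hw
  apply red
  fin_cases u
  · obtain ⟨ρ, h1, h2, h3⟩ := key ra rb 1 ra_sq rb_sq (one_mul 1) (by rw [mul_one, one_mul])
    refine ⟨ρ, ![2, 0, -2], ?_, by simp, ?_⟩
    · intro w
      fin_cases w
      · show ρ (t 0) = tr 2
        rw [ht0, map_mul, map_mul, h1, h2, e2]
      · show ρ (t 1) = tr 0
        rw [ht1, map_mul, map_mul, h2, h3, one_mul, rb_sq, tr_zero]
      · show ρ (t 2) = tr (-2)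
        rw [ht2, map_mul, map_mul, h1, h2, e3]
    · intro w hw
      fin_cases w
      · exact absurd rfl hw
      · simp
      · simp
  · obtain ⟨ρ, h1, h2, h3⟩ := key 1 rb ra (one_mul 1) rb_sq ra_sq (by rw [mul_one, one_mul])
    refine ⟨ρ, ![0, 2, 0], ?_, by simp, ?_⟩
    · intro w
      fin_cases w
      · show ρ (t 0) = tr 0
        rw [ht0, map_mul, map_mul, h1, h2, one_mul, rb_sq, tr_zero]
      · show ρ (t 1) = tr 2
        rw [ht1, map_mul, map_mul, h2, h3, e2]
      · show ρ (t 2) = tr 0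
        rw [ht2, map_mul, map_mul, h1, h2, mul_one, rb_sq, tr_zero]
    · intro w hw
      fin_cases w
      · simp
      · exact absurd rfl hw
      · simp
  · obtain ⟨ρ, h1, h2, h3⟩ := key rb ra rb rb_sq ra_sq rb_sq rfl
    refine ⟨ρ, ![-2, -2, 2], ?_, by simp, ?_⟩
    · intro w
      fin_cases w
      · show ρ (t 0) = tr (-2)
        rw [ht0, map_mul, map_mul, h1, h2, e3]
      · show ρ (t 1) = tr (-2)
        rw [ht1, map_mul, map_mul, h2, h3, e3]
      · show ρ (t 2) = tr 2
        rw [ht2, map_mul, map_mul, h1, h2, e2]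
    · intro w hw
      fin_cases w
      · simp
      · simp
      · exact absurd rfl hw

/-- it is enough to look at the degrees `≥ 2` -/
theorem geo_base {V : Type} [Finite V] {K : SimpleGraph V} (h : ∀ i, 2 ≤ i → LV K i) : Geo K := by
  intro i hi
  rcases Nat.lt_or_ge i 2 with h1 | h1
  · rcases Nat.eq_zero_or_pos i with rfl | h2
    · exact fl_zero _
    · obtain rfl : i = 1 := by omega
      obtain ⟨a, b, c, h3, h4, h5, h6, h7⟩ := exists_three hi
      exact fl_three h3 h4 h5 h6 h7
  · exact absurd (h i h1) hi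

/-- gluing along a detected subgraph whose common link contains three vertices with at most one edge -/
theorem geo_glue3 {V : Type} [Finite V] (G : SimpleGraph V) (A B : Set V) (hAB : A ∪ B = Set.univ)
    (hno : ∀ a ∈ A, a ∉ B → ∀ b ∈ B, b ∉ A → ¬ G.Adj a b)
    (h1 : Geo (G.induce A)) (h2 : Geo (G.induce B)) (h3 : Geo (G.induce (A ∩ B))) {a b c : V} (hab : a ≠ b)
    (hcb : c ≠ b) (hac : a ≠ c) (nab : ¬ G.Adj a b) (ncb : ¬ G.Adj c b)
    (hI : ∀ x ∈ A ∩ B, G.Adj a x ∧ G.Adj b x ∧ G.Adj c x) : Geo G := by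
  intro i hi
  by_cases hA : LV (G.induce A) i
  · by_cases hB : LV (G.induce B) i
    · have h4 : ∃ j, i = j + 1 ∧ ¬ LV (G.induce (A ∩ B)) j := by
        by_contra h5
        push Not at h5
        have h6 := lv_glue G A B hno i hA hB h5
        rw [hAB] at h6
        exact hi ((lv_univ G i).1 h6)
      obtain ⟨j, rfl, hj⟩ := h4
      have h5 : Fl (W (G.induce ({a, b, c} : Set V))) 1 := by
        refine fl_three (a := ⟨a, by simp⟩) (b := ⟨b, by simp⟩) (c := ⟨c, by simp⟩) ?_ ?_ ?_ nab ncb
        · exact fun h => hab (Subtype.mk.inj h)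
        · exact fun h => hcb (Subtype.mk.inj h)
        · exact fun h => hac (Subtype.mk.inj h)
      have h6 : ∀ p : ({a, b, c} : Set V), ∀ x ∈ A ∩ B, G.Adj p.1 x := by
        rintro ⟨p, hp⟩ x hx
        simp only [Set.mem_insert_iff, Set.mem_singleton_iff] at hp
        rcases hp with rfl | rfl | rfl
        · exact (hI x hx).1
        · exact (hI x hx).2.1
        · exact (hI x hx).2.2
      refine ((h3 j hj).join h5).emb (fun x => match x with
        | Sum.inl y => y.1
        | Sum.inr p => p.1) ?_ ?_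
      · rintro (x | x) (y | y) hxy
        · exact congrArg _ (Subtype.ext hxy)
        · have h7 : x.1 = y.1 := hxy
          exact absurd h7.symm (G.ne_of_adj (h6 y x.1 x.2))
        · have h7 : x.1 = y.1 := hxy
          exact absurd h7 (G.ne_of_adj (h6 x y.1 y.2))
        · exact congrArg _ (Subtype.ext hxy)
      · rintro (x | x) (y | y)
        · exact Iff.rfl
        · exact iff_of_true (h6 y x.1 x.2).symm trivial
        · exact iff_of_true (h6 x y.1 y.2) trivial
        · exact Iff.rfl
    · exact (h2 i hB).emb (fun x => x.1) (fun x y h => Subtype.ext h) fun a b => Iff.rfl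
  · exact (h1 i hA).emb (fun x => x.1) (fun x y h => Subtype.ext h) fun a b => Iff.rfl

end Pool.Agent.V5helper75.BK
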